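import Pool.Agent.H.MP_cba12a_lc.RL.Iso
import Pool.Agent.H.MP_cba12a_lc.RK.Defs

/-!
The isoperimetric inequality for families of points of the cube labelled by terms.
-/

namespace Pool.Agent.H.MP_cba12a_lc.RL

open Finset Pool.Agent.H.MP_cba12a_lc Pool.Agent.H.MP_cba12a_lc.RK

variable {n : ℕ}

/-- the set of the variables which are on -/
private def IsoN_w (o x : Fin n → Bool) : Finset (Fin n) := univ.filter fun l => x l = o l

private def IsoN_g (o : Fin n → Bool) (s : Finset (Fin n)) : Fin n → Bool :=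
  fun j => if j ∈ s then o j else !(o j)

private theorem IsoN_mem {o x : Fin n → Bool} {l : Fin n} : l ∈ IsoN_w o x ↔ x l = o l := by
  simp [IsoN_w]

private theorem IsoN_gw (o x : Fin n → Bool) : IsoN_g o (IsoN_w o x) = x := by
  funext j
  unfold IsoN_g
  split_ifs with h
  · exact (IsoN_mem.1 h).symm
  · rw [IsoN_mem] at h
    revert h
    cases x j <;> cases o j <;> simp

private theorem IsoN_inj (o : Fin n → Bool) : Function.Injective (IsoN_w o) :=
  Function.LeftInverse.injective (IsoN_gw o)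

private theorem IsoN_erase {o x : Fin n → Bool} {l : Fin n} (hl : x l = o l) :
    (IsoN_w o x).erase l = IsoN_w o (flp l x) := by
  ext j
  rw [mem_erase, IsoN_mem, IsoN_mem]
  by_cases hj : j = l
  · subst hj
    rw [flp_same, hl]
    constructor
    · intro h
      exact absurd rfl h.1
    · intro h
      exact absurd h (by cases o j <;> simp)
  · rw [flp_ne hj]
    exact ⟨fun h => h.2, fun h => ⟨hj, h⟩⟩

/- PROOF. Transport to sets by the injection `w x := univ.filter fun l => x l = o l`: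
`(w x).erase l = w (flp l x)` if `x l = o l`. `iso_gen` with `𝒦 := 𝒱.image Z`, `K := Finset (Fin n)`,
`T := id`, `U := univ`, the family `𝒱.image w`, labels `Z` composed with the inverse of `w`
(`fun s j => if j ∈ s then o j else !(o j)`), then `ent_le` (`∑_𝒦 #fibres = |𝒱|`,
`card_eq_sum_card_image`) and `log (card) ≤ κ log 2`; divide by `log 2`. For `l ∈ Z x` we have
`x l = o l` by `hT`. -/
theorem iso_pts {o : Fin n → Bool} {𝒱 : Finset (Fin n → Bool)}
    {Z : (Fin n → Bool) → Finset (Fin n)} {κ : ℕ} (hT : ∀ x ∈ 𝒱, On o (Z x) x)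
    (hP : ∀ x ∈ 𝒱, ∀ l, x l = o l → l ∉ Z x → flp l x ∈ 𝒱) (hK : (𝒱.image Z).card ≤ 2 ^ κ) :
    ∑ x ∈ 𝒱, ((Z x).filter fun l => flp l x ∈ 𝒱).card ≤ κ * 𝒱.card := by
  classical
  set 𝒲 : Finset (Finset (Fin n)) := 𝒱.image (IsoN_w o) with h𝒲
  set 𝒦 : Finset (Finset (Fin n)) := 𝒱.image Z with h𝒦
  have hmem : ∀ x, IsoN_w o x ∈ 𝒲 ↔ x ∈ 𝒱 := by
    intro x
    rw [h𝒲, mem_image]
    constructor
    · rintro ⟨y, hy, hyx⟩
      rw [← IsoN_inj o hyx]
      exact hy
    · intro hx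
      exact ⟨x, hx, rfl⟩
  have hiso := iso_gen 𝒦 (univ : Finset (Fin n)) 𝒲 (fun s => Z (IsoN_g o s)) id
    (fun s _ => subset_univ s)
    (by
      intro s hs
      obtain ⟨x, hx, rfl⟩ := mem_image.1 hs
      simp only [IsoN_gw]
      exact mem_image_of_mem Z hx)
    (by
      intro s hs
      obtain ⟨x, hx, rfl⟩ := mem_image.1 hs
      simp only [IsoN_gw, id]
      intro l hl
      exact IsoN_mem.2 (hT x hx l hl))
    (by
      intro s hs l hl hlZ
      obtain ⟨x, hx, rfl⟩ := mem_image.1 hs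
      simp only [IsoN_gw, id] at hlZ
      have h1 := IsoN_mem.1 hl
      rw [IsoN_erase h1, hmem]
      exact hP x hx l h1 hlZ)
  have hsum : ∑ s ∈ 𝒲, ((id (Z (IsoN_g o s))).filter fun l => s.erase l ∈ 𝒲).card =
      ∑ x ∈ 𝒱, ((Z x).filter fun l => flp l x ∈ 𝒱).card := by
    rw [h𝒲, sum_image fun x _ y _ hxy => IsoN_inj o hxy]
    refine sum_congr rfl fun x hx => ?_
    rw [IsoN_gw, id]
    congr 1
    refine filter_congr fun l hl => ?_
    rw [IsoN_erase (hT x hx l hl), ← h𝒲, hmem]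
  rw [hsum] at hiso
  have hent := ent_le 𝒦 (fun a => (((𝒲.filter fun s => Z (IsoN_g o s) = a).card : ℕ) : ℝ))
    (fun a _ => Nat.cast_nonneg _)
  have hcard : ∑ a ∈ 𝒦, (((𝒲.filter fun s => Z (IsoN_g o s) = a).card : ℕ) : ℝ) =
      (𝒱.card : ℝ) := by
    have h1 : 𝒲.card = 𝒱.card := by
      rw [h𝒲]
      exact card_image_of_injective 𝒱 (IsoN_inj o)
    rw [← h1, ← Nat.cast_sum]
    congr 1
    refine (card_eq_sum_card_fiberwise fun s hs => ?_).symm
    obtain ⟨x, hx, rfl⟩ := mem_image.1 (mem_coe.1 hs)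
    simp only [IsoN_gw]
    exact mem_coe.2 (mem_image_of_mem Z hx)
  have h1 : 𝒲.card = 𝒱.card := by
    rw [h𝒲]
    exact card_image_of_injective 𝒱 (IsoN_inj o)
  rw [hcard] at hent
  rw [h1] at hiso
  have hlog2 : 0 < Real.log 2 := Real.log_pos (by norm_num)
  have hlog : Real.log (𝒦.card : ℝ) ≤ κ * Real.log 2 := by
    rcases Nat.eq_zero_or_pos 𝒦.card with h0 | h0
    · rw [h0, Nat.cast_zero, Real.log_zero]
      positivity
    · rw [← Real.log_pow]
      refine Real.log_le_log (by exact_mod_cast h0) ?_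
      exact_mod_cast hK
  have hV : (0 : ℝ) ≤ 𝒱.card := Nat.cast_nonneg _
  have h2 : ((∑ x ∈ 𝒱, ((Z x).filter fun l => flp l x ∈ 𝒱).card : ℕ) : ℝ) * Real.log 2 ≤
      ((κ * 𝒱.card : ℕ) : ℝ) * Real.log 2 := by
    refine hiso.trans (hent.trans ?_)
    push_cast
    calc (𝒱.card : ℝ) * Real.log 𝒦.card ≤ (𝒱.card : ℝ) * (κ * Real.log 2) :=
          mul_le_mul_of_nonneg_left hlog hV
      _ = κ * 𝒱.card * Real.log 2 := by ring
  exact_mod_cast le_of_mul_le_mul_right h2 hlog2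

end Pool.Agent.H.MP_cba12a_lc.RL
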