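import Pool.Agent.H.MP_cba12a_lc.RL.Defs
import Pool.Agent.H.MP_cba12a_lc.RL.IsoN

/-!
The variables of the first satisfied term which are not pivotal, at the pivotal points of `i`.
-/

namespace Pool.Agent.H.MP_cba12a_lc.RL

open Finset Pool.Agent.H.MP_cba12a_lc Pool.Agent.H.MP_cba12a_lc.RK

variable {n : ℕ} {o : Fin n → Bool} {q : (Fin n → Bool) → Bool} {F : Finset (Finset (Fin n))}
  {k L : ℕ} {rk : Finset (Fin n) → ℕ} {h : List (List Lit)}

/- PROOF. `iso_pts` with `𝒱 := pvS o q h i`, `Z := ft o F rk`. `hT`: `ft_spec`. `hP`: for `x ∈ 𝒱`,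
`x l = o l`, `l ∉ ft x`: `l ≠ i` (`piv_sub`: `i ∈ piv x ⊆ ft x`), `ft_flp` gives `q (flp l x) = true`,
`satD_flp_off`, and `q (flp i (flp l x)) = false` by `pivot_off`. `hK`: the labels are terms of `F` which
contain `i`: `hR.read i`. Finally `ft x \ piv x ⊆ (ft x).filter fun l => flp l x ∈ 𝒱`: for `l ∈ ft x`,
`l ∉ piv x`: `x l = o l`, so `q (flp l x) = true`, `l ≠ i`, and `pivot_off`, `satD_flp_off` again. -/
theorem a0 {κ : ℕ} (hR : RefF o q F k L) (hrk : Function.Injective rk) (hh : OrL o h)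
    (hk : k ≤ 2 ^ κ) (i : Fin n) :
    ∑ x ∈ pvS o q h i, (ft o F rk x \ piv o q x).card ≤ κ * (pvS o q h i).card := by
  classical
  have hmove : ∀ x ∈ pvS o q h i, ∀ l, x l = o l → q (flp l x) = true →
      flp l x ∈ pvS o q h i := by
    intro x hx l hl hq
    rw [mem_pvS, pv_iff] at hx ⊢
    obtain ⟨h1, h2, h3, h4, _⟩ := hx
    have hli : l ≠ i := by
      rintro rfl
      rw [h4] at hq
      exact Bool.noConfusion hq
    refine ⟨?_, hq, satD_flp_off hh hl h3, pivot_off hR hli hl h4, sat_nil _⟩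
    rw [flp_ne hli.symm]
    exact h1
  have hq : ∀ x ∈ pvS o q h i, q x = true := fun x hx => by
    rw [mem_pvS, pv_iff] at hx
    exact hx.2.1
  refine le_trans (sum_le_sum fun x hx => card_le_card ?_)
    (iso_pts (o := o) (Z := ft o F rk) (fun x hx => (ft_spec hR (hq x hx)).2.1) ?_ ?_)
  · intro l hl
    rw [mem_sdiff, mem_piv] at hl
    have h1 : x l = o l := (ft_spec (rk := rk) hR (hq x hx)).2.1 l hl.1
    refine mem_filter.2 ⟨hl.1, hmove x hx l h1 ?_⟩
    rw [← Bool.not_eq_false]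
    exact fun h2 => hl.2 ⟨h1, h2⟩
  · intro x hx l hl hlT
    exact hmove x hx l hl (ft_flp hR hrk (hq x hx) hl hlT).1
  · refine le_trans (le_trans (card_le_card ?_) (hR.read i)) hk
    intro T hT
    rw [mem_image] at hT
    obtain ⟨x, hx, rfl⟩ := hT
    obtain ⟨h1, h2, _⟩ := ft_spec (rk := rk) hR (hq x hx)
    refine mem_filter.2 ⟨h1, piv_sub hR h1 h2 ?_⟩
    exact (mem_pvS'.1 hx).2

end Pool.Agent.H.MP_cba12a_lc.RL
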