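import Pool.Agent.H.MP_cba12a_lc.RK.FirstB

/-!
Definitions: the first satisfied term of a point, its pivotal variables, and the pairs of variables
of which one can be switched off, but not both.
-/

namespace Pool.Agent.H.MP_cba12a_lc.RL

open Finset Pool.Agent.H.MP_cba12a_lc Pool.Agent.H.MP_cba12a_lc.RK

variable {n : ℕ}

open Classical in
/-- the satisfied term of smallest rank -/
noncomputable def ft (o : Fin n → Bool) (F : Finset (Finset (Fin n))) (rk : Finset (Fin n) → ℕ)
    (x : Fin n → Bool) : Finset (Fin n) :=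
  if hx : ∃ T ∈ F, On o T x ∧ ∀ S ∈ F, rk S < rk T → ¬ On o S x then hx.choose else ∅

/-- the pivotal variables -/
def piv (o : Fin n → Bool) (q : (Fin n → Bool) → Bool) (x : Fin n → Bool) : Finset (Fin n) :=
  univ.filter fun l => x l = o l ∧ q (flp l x) = false

/-- the points of `q` outside `h` -/
def unc (q : (Fin n → Bool) → Bool) (h : List (List Lit)) : Finset (Fin n → Bool) :=
  univ.filter fun x => q x = true ∧ satD (List.ofFn x) h = false

/-- two satisfied terms, one of which has more than `r` variables outside the other -/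
def Far (o : Fin n → Bool) (F : Finset (Finset (Fin n))) (r : ℕ) (x : Fin n → Bool) : Prop :=
  ∃ T' ∈ F, ∃ T'' ∈ F, On o T' x ∧ On o T'' x ∧ r < (T'' \ T').card

/-- a satisfied term with fewer than `l` variables -/
def Shr (o : Fin n → Bool) (F : Finset (Finset (Fin n))) (l : ℕ) (x : Fin n → Bool) : Prop :=
  ∃ T ∈ F, On o T x ∧ T.card < l

/-- `i` and `j` are on, each can be switched off, but not both -/
def orP (o : Fin n → Bool) (q : (Fin n → Bool) → Bool) (h : List (List Lit)) (i j : Fin n) :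
    Finset (Fin n → Bool) :=
  univ.filter fun x => x i = o i ∧ x j = o j ∧ satD (List.ofFn x) h = false ∧
    q (flp i x) = true ∧ q (flp j x) = true ∧ q (flp i (flp j x)) = false

/-- the variables which occur together with `i` in a term -/
def nbr (F : Finset (Finset (Fin n))) (i : Fin n) : Finset (Fin n) :=
  (F.filter fun T => i ∈ T).biUnion id

open Classical in
/-- the number of pairs `(x, j)`, `x ∈ orP i j`, such that `x` satisfies `P` -/
noncomputable def orN (o : Fin n → Bool) (q : (Fin n → Bool) → Bool) (h : List (List Lit))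
    (P : (Fin n → Bool) → Prop) (J : Finset (Fin n)) (i : Fin n) : ℕ :=
  ∑ j ∈ J, ((orP o q h i j).filter P).card

section lemmas

variable {o : Fin n → Bool} {q : (Fin n → Bool) → Bool} {F : Finset (Finset (Fin n))} {k L : ℕ}
  {rk : Finset (Fin n) → ℕ} {h : List (List Lit)} {i j l : Fin n} {T : Finset (Fin n)}
  {x : Fin n → Bool}

theorem mem_piv : l ∈ piv o q x ↔ x l = o l ∧ q (flp l x) = false := by
  unfold piv
  rw [mem_filter]
  simp

theorem mem_unc : x ∈ unc q h ↔ q x = true ∧ satD (List.ofFn x) h = false := by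
  unfold unc
  rw [mem_filter]
  simp

theorem mem_orP : x ∈ orP o q h i j ↔ x i = o i ∧ x j = o j ∧ satD (List.ofFn x) h = false ∧
    q (flp i x) = true ∧ q (flp j x) = true ∧ q (flp i (flp j x)) = false := by
  unfold orP
  rw [mem_filter]
  simp

theorem mem_nbr : j ∈ nbr F i ↔ ∃ T ∈ F, i ∈ T ∧ j ∈ T := by
  unfold nbr
  rw [mem_biUnion]
  constructor
  · rintro ⟨T, hT, hj⟩
    rw [mem_filter] at hT
    exact ⟨T, hT.1, hT.2, hj⟩
  · rintro ⟨T, hT, hi, hj⟩
    exact ⟨T, mem_filter.2 ⟨hT, hi⟩, hj⟩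

theorem nbr_card (hR : RefF o q F k L) : (nbr F i).card ≤ k * L := by
  unfold nbr
  refine card_biUnion_le.trans ?_
  calc ∑ T ∈ F.filter (fun T => i ∈ T), (id T).card
      ≤ ∑ _T ∈ F.filter (fun T => i ∈ T), L :=
        sum_le_sum fun T hT => hR.len T (mem_filter.1 hT).1
    _ = (F.filter fun T => i ∈ T).card * L := by rw [sum_const, smul_eq_mul]
    _ ≤ k * L := Nat.mul_le_mul_right _ (hR.read i)

theorem ft_spec (hR : RefF o q F k L) (hq : q x = true) :
    ft o F rk x ∈ F ∧ On o (ft o F rk x) x ∧ ∀ S ∈ F, rk S < rk (ft o F rk x) → ¬ On o S x := by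
  have hx := exists_first (rk := rk) hR hq
  unfold ft
  rw [dif_pos hx]
  exact hx.choose_spec

theorem ft_eq (hrk : Function.Injective rk) (hT : T ∈ F) (hO : On o T x)
    (hm : ∀ S ∈ F, rk S < rk T → ¬ On o S x) : ft o F rk x = T := by
  have hx : ∃ T ∈ F, On o T x ∧ ∀ S ∈ F, rk S < rk T → ¬ On o S x := ⟨T, hT, hO, hm⟩
  unfold ft
  rw [dif_pos hx]
  obtain ⟨h1, h2, h3⟩ := hx.choose_spec
  rcases lt_trichotomy (rk hx.choose) (rk T) with h | h | h
  · exact absurd h2 (hm _ h1 h)
  · exact hrk h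
  · exact absurd hO (h3 T hT h)

/-- switching a variable off keeps the satisfied terms without it and creates no new ones -/
theorem on_off {S : Finset (Fin n)} (hl : x l = o l) : On o S (flp l x) ↔ On o S x ∧ l ∉ S := by
  constructor
  · intro hO
    have hlS : l ∉ S := by
      intro hc
      have h1 := hO l hc
      rw [flp_same, hl] at h1
      exact absurd h1 (by cases o l <;> simp)
    exact ⟨(on_flp_of_not_mem hlS).1 hO, hlS⟩
  · rintro ⟨hO, hlS⟩
    exact (on_flp_of_not_mem hlS).2 hO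

theorem ft_flp (hR : RefF o q F k L) (hrk : Function.Injective rk) (hq : q x = true)
    (hl : x l = o l) (hlT : l ∉ ft o F rk x) :
    q (flp l x) = true ∧ ft o F rk (flp l x) = ft o F rk x := by
  obtain ⟨h1, h2, h3⟩ := ft_spec (rk := rk) hR hq
  have hO : On o (ft o F rk x) (flp l x) := (on_off hl).2 ⟨h2, hlT⟩
  refine ⟨(hR.iff _).2 ⟨_, h1, hO⟩, ft_eq hrk h1 hO fun S hS hlt hc => ?_⟩
  exact h3 S hS hlt ((on_off hl).1 hc).1

theorem piv_sub (hR : RefF o q F k L) (hT : T ∈ F) (hO : On o T x) : piv o q x ⊆ T := by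
  intro l hl
  exact mem_of_pivot hR hT hO (mem_piv.1 hl).2

theorem q_of_off (hR : RefF o q F k L) (hi : x i = o i) (hq : q (flp i x) = true) : q x = true := by
  have h1 := up_flp hR.up (i := i) (x := flp i x) (by rw [flp_same, hi]) hq
  rw [flp_flp] at h1
  exact h1

/-- both points of an edge in `h` -/
theorem satD_flp_off (hh : OrL o h) (hl : x l = o l) (hs : satD (List.ofFn x) h = false) :
    satD (List.ofFn (flp l x)) h = false := by
  refine satD_off (j := l) hh (by rw [flp_same, hl]) ?_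
  rw [flp_flp]
  exact hs

theorem q_orP (hR : RefF o q F k L) (hx : x ∈ orP o q h i j) : q x = true := by
  rw [mem_orP] at hx
  exact q_of_off hR hx.1 hx.2.2.2.1

theorem ne_orP (hR : RefF o q F k L) (hx : x ∈ orP o q h i j) : i ≠ j := by
  have h1 := q_orP hR hx
  rw [mem_orP] at hx
  rintro rfl
  have h2 := hx.2.2.2.2.2
  rw [flp_flp, h1] at h2
  exact absurd h2 (by simp)

theorem orP_symm (hx : x ∈ orP o q h i j) : x ∈ orP o q h j i := by
  rw [mem_orP] at hx ⊢
  refine ⟨hx.2.1, hx.1, hx.2.2.1, hx.2.2.2.2.1, hx.2.2.2.1, ?_⟩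
  by_cases hij : i = j
  · subst hij
    exact hx.2.2.2.2.2
  · rw [flp_comm hij]
    exact hx.2.2.2.2.2

/-- a satisfied term contains one of the two variables -/
theorem mem_or_mem (hR : RefF o q F k L) (hx : x ∈ orP o q h i j) (hT : T ∈ F) (hO : On o T x) :
    i ∈ T ∨ j ∈ T := by
  rw [mem_orP] at hx
  by_contra hc
  rw [not_or] at hc
  have h1 : q (flp i (flp j x)) = true :=
    (hR.iff _).2 ⟨T, hT, (on_flp_of_not_mem hc.1).2 ((on_flp_of_not_mem hc.2).2 hO)⟩
  rw [hx.2.2.2.2.2] at h1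
  exact absurd h1 (by simp)

theorem fstT_iff (hR : RefF o q F k L) (hrk : Function.Injective rk) (hT : T ∈ F) :
    x ∈ fstT o q F rk h i T ↔ x ∈ pvS o q h i ∧ ft o F rk x = T := by
  rw [mem_fstT, mem_pvS]
  constructor
  · rintro ⟨h1, h2, h3⟩
    exact ⟨h1, ft_eq hrk hT h2 h3⟩
  · rintro ⟨h1, rfl⟩
    have h2 := ft_spec (rk := rk) hR (pv_iff.1 h1).2.1
    exact ⟨h1, h2.2.1, h2.2.2⟩

theorem mem_pvS' : x ∈ pvS o q h i ↔ x ∈ unc q h ∧ i ∈ piv o q x := by
  rw [mem_pvS, pv_iff, mem_unc, mem_piv]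
  constructor
  · rintro ⟨h1, h2, h3, h4, _⟩
    exact ⟨⟨h2, h3⟩, h1, h4⟩
  · rintro ⟨⟨h2, h3⟩, h1, h4⟩
    exact ⟨h1, h2, h3, h4, sat_nil _⟩

theorem sum_pvS : ∑ i, (pvS o q h i).card = ∑ x ∈ unc q h, (piv o q x).card := by
  classical
  have h1 : ∀ i, (pvS o q h i).card = ∑ x ∈ unc q h, if i ∈ piv o q x then 1 else 0 := by
    intro i
    rw [← card_filter]
    congr 1
    ext x
    rw [mem_filter, mem_pvS']
  rw [sum_congr rfl fun i _ => h1 i, sum_comm]
  refine sum_congr rfl fun x _ => ?_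
  rw [← card_filter]
  congr 1
  ext l
  simp

end lemmas

end Pool.Agent.H.MP_cba12a_lc.RL
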