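import Mathlib

/-!
The entropy of a pair of masses.
-/

namespace Pool.Agent.H.MP_cba12a_lc.RL

open Finset

/-- `t log t` -/
noncomputable def phi (t : ℝ) : ℝ := t * Real.log t

/-- the entropy of a pair of masses -/
noncomputable def h2 (s t : ℝ) : ℝ := phi (s + t) - phi s - phi t

private theorem Ent_phi_zero : phi 0 = 0 := by
  unfold phi
  rw [zero_mul]

private theorem Ent_zero_left (t : ℝ) : h2 0 t = 0 := by
  unfold h2
  rw [Ent_phi_zero, zero_add]
  ring

private theorem Ent_zero_right (s : ℝ) : h2 s 0 = 0 := by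
  unfold h2
  rw [Ent_phi_zero, add_zero]
  ring

private theorem Ent_log {s v q : ℝ} (hs : 0 < s) (hv : 0 < v) (hq : 0 < q) :
    s * (Real.log v - Real.log s + Real.log q) ≤ v * q - s := by
  have h1 : Real.log (v * q / s) ≤ v * q / s - 1 := Real.log_le_sub_one_of_pos (by positivity)
  rw [Real.log_div (by positivity) hs.ne', Real.log_mul hv.ne' hq.ne'] at h1
  have h3 := mul_le_mul_of_nonneg_left h1 hs.le
  have h4 : s * (v * q / s - 1) = v * q - s := by
    field_simp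
  rw [h4] at h3
  linarith

/- PROOF. For `s, t > 0`: `h2 s t = s * log ((s + t) / s) + t * log ((s + t) / t)`, and
`s * (log ((s + t) / s) + log p) = s * log ((s + t) * p / s) ≤ (s + t) * p - s`
(`Real.log_le_sub_one_of_pos`), the same for `t` with `1 - p`; the sum of the right sides is `0`.
The cases `s = 0`, `t = 0` are immediate (`phi 0 = 0`, `log p ≤ 0`). -/
theorem gibbs {s t p : ℝ} (hs : 0 ≤ s) (ht : 0 ≤ t) (hp : 0 < p) (hp1 : p < 1) :
    h2 s t ≤ -(s * Real.log p) - t * Real.log (1 - p) := by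
  have hl : Real.log p ≤ 0 := Real.log_nonpos hp.le hp1.le
  have hl1 : Real.log (1 - p) ≤ 0 := Real.log_nonpos (by linarith) (by linarith)
  rcases hs.eq_or_lt with rfl | hs
  · rw [Ent_zero_left]
    have := mul_nonneg ht (neg_nonneg.2 hl1)
    linarith
  rcases ht.eq_or_lt with rfl | ht
  · rw [Ent_zero_right]
    have := mul_nonneg hs.le (neg_nonneg.2 hl)
    linarith
  have h1 := Ent_log (q := p) hs (by linarith : 0 < s + t) hp
  have h3 := Ent_log (q := 1 - p) ht (by linarith : 0 < s + t) (by linarith)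
  unfold h2 phi
  nlinarith

theorem h2_eq {s t : ℝ} (hs : 0 < s) (ht : 0 < t) :
    h2 s t = -(s * Real.log (s / (s + t))) - t * Real.log (1 - s / (s + t)) := by
  have h1 : 1 - s / (s + t) = t / (s + t) := by
    field_simp
    ring
  rw [h1, Real.log_div hs.ne' (by positivity), Real.log_div ht.ne' (by positivity)]
  unfold h2 phi
  ring

/- PROOF. If `s = 0` or `t' = 0` both sides are `0`. Else `gibbs` with `p := s / (s + t')`, `h2_eq` and
`log (1 - p) ≤ 0`. -/
theorem h2_mono {s t t' : ℝ} (hs : 0 ≤ s) (ht : 0 ≤ t) (htt : t ≤ t') : h2 s t ≤ h2 s t' := by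
  rcases hs.eq_or_lt with rfl | hs
  · rw [Ent_zero_left, Ent_zero_left]
  rcases (ht.trans htt).eq_or_lt with h0 | ht'
  · have : t = t' := le_antisymm htt (by linarith)
    rw [this]
  have hp : 0 < s / (s + t') := by positivity
  have hp1 : s / (s + t') < 1 := by
    rw [div_lt_one (by positivity)]
    linarith
  have h1 := gibbs hs.le ht hp hp1
  rw [h2_eq hs ht']
  have hl1 : Real.log (1 - s / (s + t')) ≤ 0 :=
    Real.log_nonpos (by linarith) (by linarith)
  nlinarith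

/- PROOF. Let `y := ∑ w + x`. If `V0 = 0` then `x = 0` and all `v a`, `w a` are `0`. If `y = 0` then
`x = 0`, `w a = 0`, `h2 (v a) 0 = 0`, `0 = h2 V0 0 ≤ h2 V0 V1`. Else let `p := V0 / (V0 + y)`;
`p ≥ 1 / 2` as `y ≤ V0`. `h2 V0 V1 ≥ h2 V0 y = - V0 log p - (∑ w) log (1 - p) - x log (1 - p)`, and
`∑ h2 (v a) (w a) ≤ - V0 log p - (∑ w) log (1 - p)` by `gibbs`, `- log (1 - p) ≥ log 2`. -/
theorem ent_step {K : Type} (Q : Finset K) (v w : K → ℝ) (hv : ∀ a ∈ Q, 0 ≤ v a)
    (hw : ∀ a ∈ Q, 0 ≤ w a) {V0 V1 x : ℝ} (hV0 : ∑ a ∈ Q, v a = V0) (hx : 0 ≤ x)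
    (h0 : ∑ a ∈ Q, w a + x ≤ V0) (h1 : ∑ a ∈ Q, w a + x ≤ V1) :
    x * Real.log 2 + ∑ a ∈ Q, h2 (v a) (w a) ≤ h2 V0 V1 := by
  have hW : 0 ≤ ∑ a ∈ Q, w a := Finset.sum_nonneg hw
  have hV : 0 ≤ V0 := by rw [← hV0]; exact Finset.sum_nonneg hv
  have hV1 : 0 ≤ V1 := by linarith
  rcases (add_nonneg hW hx).eq_or_lt with hy | hy
  · have hx0 : x = 0 := by linarith
    have hW0 : ∑ a ∈ Q, w a = 0 := by linarith
    have hw0 : ∀ a ∈ Q, w a = 0 := (Finset.sum_eq_zero_iff_of_nonneg hw).1 hW0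
    have h3 : ∑ a ∈ Q, h2 (v a) (w a) = 0 := by
      refine Finset.sum_eq_zero fun a ha => ?_
      rw [hw0 a ha, Ent_zero_right]
    rw [h3, hx0, zero_mul, zero_add, ← Ent_zero_right V0]
    exact h2_mono hV le_rfl hV1
  · obtain ⟨y, hye⟩ : ∃ y, y = ∑ a ∈ Q, w a + x := ⟨_, rfl⟩
    rw [← hye] at hy h0 h1
    have hV0' : 0 < V0 := by linarith
    have hp : 0 < V0 / (V0 + y) := by positivity
    have hp1 : V0 / (V0 + y) < 1 := by
      rw [div_lt_one (by positivity)]
      linarith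
    have hp2 : 1 / 2 ≤ V0 / (V0 + y) := by
      rw [div_le_div_iff₀ (by norm_num) (by positivity)]
      linarith
    have h3 : h2 V0 y ≤ h2 V0 V1 := h2_mono hV hy.le h1
    rw [h2_eq hV0' hy] at h3
    obtain ⟨p, hpe⟩ : ∃ p, p = V0 / (V0 + y) := ⟨_, rfl⟩
    rw [← hpe] at hp hp1 hp2 h3
    have h4 : ∑ a ∈ Q, h2 (v a) (w a) ≤
        ∑ a ∈ Q, (-(v a * Real.log p) - w a * Real.log (1 - p)) :=
      Finset.sum_le_sum fun a ha => gibbs (hv a ha) (hw a ha) hp hp1
    rw [Finset.sum_sub_distrib, Finset.sum_neg_distrib, ← Finset.sum_mul, ← Finset.sum_mul,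
      hV0] at h4
    have h5 : Real.log (1 - p) ≤ -Real.log 2 := by
      rw [← Real.log_inv]
      refine Real.log_le_log (by linarith) ?_
      rw [← one_div]
      linarith
    have h6 : x * Real.log 2 ≤ -(x * Real.log (1 - p)) := by
      have := mul_le_mul_of_nonneg_left h5 hx
      linarith
    have h7 : y * Real.log (1 - p) =
        (∑ a ∈ Q, w a) * Real.log (1 - p) + x * Real.log (1 - p) := by
      rw [hye]
      ring
    linarith

/- PROOF. With `V := ∑ v`, `m := 𝒦.card`: for `v a > 0`, `v a * log (V / (m * v a)) ≤ V / m - v a`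
(`Real.log_le_sub_one_of_pos`); for `v a = 0` the left side is `0`. Sum over `𝒦`:
`∑ v a * (log V - log m - log (v a)) ≤ V - V = 0`. If `V = 0` everything is `0`. -/
theorem ent_le {K : Type} (𝒦 : Finset K) (v : K → ℝ) (hv : ∀ a ∈ 𝒦, 0 ≤ v a) :
    phi (∑ a ∈ 𝒦, v a) - ∑ a ∈ 𝒦, phi (v a) ≤ (∑ a ∈ 𝒦, v a) * Real.log 𝒦.card := by
  rcases (Finset.sum_nonneg hv).eq_or_lt with hV | hV
  · have hv0 : ∀ a ∈ 𝒦, v a = 0 := (Finset.sum_eq_zero_iff_of_nonneg hv).1 hV.symm
    have h1 : ∑ a ∈ 𝒦, phi (v a) = 0 := by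
      refine Finset.sum_eq_zero fun a ha => ?_
      rw [hv0 a ha, Ent_phi_zero]
    rw [h1, ← hV, Ent_phi_zero, zero_mul, sub_zero]
  · obtain ⟨V, hVe⟩ : ∃ V, V = ∑ a ∈ 𝒦, v a := ⟨_, rfl⟩
    rw [← hVe] at hV ⊢
    have hm : 0 < 𝒦.card := by
      rw [Finset.card_pos, Finset.nonempty_iff_ne_empty]
      rintro rfl
      rw [Finset.sum_empty] at hVe
      linarith
    have hm' : (0 : ℝ) < 𝒦.card := by exact_mod_cast hm
    have h1 : ∀ a ∈ 𝒦, v a * Real.log V - v a * Real.log 𝒦.card - phi (v a) ≤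
        V / 𝒦.card - v a := by
      intro a ha
      rcases (hv a ha).eq_or_lt with h | h
      · rw [← h, Ent_phi_zero]
        have : 0 ≤ V / 𝒦.card := by positivity
        linarith
      · have h3 := Ent_log (q := 1 / (𝒦.card : ℝ)) h hV (by positivity)
        rw [one_div, Real.log_inv, ← div_eq_mul_inv] at h3
        unfold phi
        linarith
    have h4 := Finset.sum_le_sum h1
    rw [Finset.sum_sub_distrib, Finset.sum_sub_distrib, Finset.sum_sub_distrib, ← Finset.sum_mul,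
      ← Finset.sum_mul, ← hVe, Finset.sum_const, nsmul_eq_mul, mul_div_cancel₀ _ hm'.ne'] at h4
    have h5 : phi V = V * Real.log V := rfl
    rw [h5]
    linarith

end Pool.Agent.H.MP_cba12a_lc.RL
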