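import Pool.Agent.H.MP_cba12a_lc.RL.Defs

/-!
The pairs of variables of which one can be switched off but not both, at points with two satisfied
terms which are far from each other.
-/

namespace Pool.Agent.H.MP_cba12a_lc.RL

open Finset Pool.Agent.H.MP_cba12a_lc Pool.Agent.H.MP_cba12a_lc.RK

variable {n : ℕ} {o : Fin n → Bool} {q : (Fin n → Bool) → Bool} {F : Finset (Finset (Fin n))}
  {k L : ℕ} {rk : Finset (Fin n) → ℕ} {h : List (List Lit)}

private theorem FarOr_card {E : Finset (Fin n → Bool)} {P : (Fin n → Bool) → Prop}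
    (hE : ∀ x ∈ E, P x) : (E.card : ℝ) / 2 ^ n ≤ pr P := by
  classical
  rw [pr_def]
  unfold mu ct
  rw [Fintype.card_fun, Fintype.card_fin, Fintype.card_bool]
  push_cast
  refine div_le_div_of_nonneg_right ?_ (by positivity)
  have h1 : E.card ≤ (univ.filter fun x : Fin n → Bool => decide (P x) = true).card := by
    refine card_le_card fun x hx => ?_
    rw [mem_filter]
    exact ⟨mem_univ _, decide_eq_true (hE x hx)⟩
  exact_mod_cast h1

open Classical in
/-- the number of points at which two terms hold, of which one is far from the other -/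
theorem far_pair {r : ℕ} {T' T'' : Finset (Fin n)} (hr : r < (T'' \ T').card) :
    ((univ.filter fun x : Fin n → Bool => On o T' x ∧ On o T'' x).card : ℝ) / 2 ^ n ≤
      (1 / 2 : ℝ) ^ T'.card * (1 / 2 : ℝ) ^ (r + 1) := by
  have h1 : ((univ.filter fun x : Fin n → Bool => On o T' x ∧ On o T'' x).card : ℝ) / 2 ^ n ≤
      pr (fun x => On o (T' ∪ (T'' \ T')) x ∧ True) := by
    refine FarOr_card fun x hx => ⟨fun i hi => ?_, trivial⟩
    rw [mem_filter] at hx
    rcases mem_union.1 hi with hi | hi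
    · exact hx.2.1 i hi
    · exact hx.2.2 i (mem_sdiff.1 hi).1
  refine h1.trans ?_
  rw [pr_on o (T' ∪ (T'' \ T')) (fun _ => True), card_union_of_disjoint disjoint_sdiff, pow_add,
    mul_assoc]
  refine mul_le_mul_of_nonneg_left ?_ (by positivity)
  calc (1 / 2 : ℝ) ^ (T'' \ T').card * pr (fun _ : Fin n → Bool => True)
      ≤ (1 / 2 : ℝ) ^ (T'' \ T').card * 1 :=
        mul_le_mul_of_nonneg_left (pr_le_one _) (by positivity)
    _ ≤ (1 / 2 : ℝ) ^ (r + 1) := by
        rw [mul_one]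
        exact pow_le_pow_of_le_one (by norm_num) (by norm_num) hr

open Classical in
/-- one pair -/
private theorem FarOr_one {r : ℕ} (hR : RefF o q F k L) (i j : Fin n) :
    (((orP o q h i j).filter (Far o F r)).card : ℝ) / 2 ^ n ≤
      2 * k * ∑ T ∈ F.filter (fun T => i ∈ T ∨ j ∈ T), (1 / 2 : ℝ) ^ T.card * (1 / 2) ^ (r + 1) := by
  obtain ⟨S, hS⟩ : ∃ S, S = F.filter (fun T => i ∈ T ∨ j ∈ T) := ⟨_, rfl⟩
  have hcard : S.card ≤ 2 * k := by
    rw [hS, filter_or]
    refine (card_union_le _ _).trans ?_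
    have h1 := hR.read i
    have h2 := hR.read j
    omega
  have hsub : (orP o q h i j).filter (Far o F r) ⊆
      S.biUnion fun T' => (S.filter fun T'' => r < (T'' \ T').card).biUnion fun T'' =>
        univ.filter fun x : Fin n → Bool => On o T' x ∧ On o T'' x := by
    intro x hx
    rw [mem_filter] at hx
    obtain ⟨hx, T', hT', T'', hT'', hO', hO'', hr⟩ := hx
    have h1 := mem_or_mem hR hx hT' hO'
    have h2 := mem_or_mem hR hx hT'' hO''
    rw [mem_biUnion]
    refine ⟨T', ?_, ?_⟩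
    · rw [hS, mem_filter]
      exact ⟨hT', h1⟩
    · rw [mem_biUnion]
      refine ⟨T'', ?_, ?_⟩
      · rw [mem_filter, hS, mem_filter]
        exact ⟨⟨hT'', h2⟩, hr⟩
      · rw [mem_filter]
        exact ⟨mem_univ _, hO', hO''⟩
  have h1 : ((orP o q h i j).filter (Far o F r)).card ≤
      ∑ T' ∈ S, ∑ T'' ∈ S.filter (fun T'' => r < (T'' \ T').card),
        (univ.filter fun x : Fin n → Bool => On o T' x ∧ On o T'' x).card := by
    refine (card_le_card hsub).trans (card_biUnion_le.trans (sum_le_sum fun T' _ => ?_))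
    exact card_biUnion_le
  have h2 : (((orP o q h i j).filter (Far o F r)).card : ℝ) ≤
      ∑ T' ∈ S, ∑ T'' ∈ S.filter (fun T'' => r < (T'' \ T').card),
        ((univ.filter fun x : Fin n → Bool => On o T' x ∧ On o T'' x).card : ℝ) := by
    exact_mod_cast h1
  calc (((orP o q h i j).filter (Far o F r)).card : ℝ) / 2 ^ n
      ≤ (∑ T' ∈ S, ∑ T'' ∈ S.filter (fun T'' => r < (T'' \ T').card),
        ((univ.filter fun x : Fin n → Bool => On o T' x ∧ On o T'' x).card : ℝ)) / 2 ^ n :=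
        div_le_div_of_nonneg_right h2 (by positivity)
    _ = ∑ T' ∈ S, ∑ T'' ∈ S.filter (fun T'' => r < (T'' \ T').card),
        ((univ.filter fun x : Fin n → Bool => On o T' x ∧ On o T'' x).card : ℝ) / 2 ^ n := by
        rw [sum_div]
        refine sum_congr rfl fun T' _ => ?_
        rw [sum_div]
    _ ≤ ∑ T' ∈ S, ∑ T'' ∈ S.filter (fun T'' => r < (T'' \ T').card),
        ((1 / 2 : ℝ) ^ T'.card * (1 / 2) ^ (r + 1)) :=
        sum_le_sum fun T' _ => sum_le_sum fun T'' hT'' => far_pair (mem_filter.1 hT'').2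
    _ ≤ ∑ T' ∈ S, (2 * k : ℝ) * ((1 / 2 : ℝ) ^ T'.card * (1 / 2) ^ (r + 1)) := by
        refine sum_le_sum fun T' _ => ?_
        rw [sum_const, nsmul_eq_mul]
        refine mul_le_mul_of_nonneg_right ?_ (by positivity)
        have h3 : (S.filter fun T'' => r < (T'' \ T').card).card ≤ 2 * k :=
          (card_filter_le _ _).trans hcard
        exact_mod_cast h3
    _ = 2 * k * ∑ T ∈ F.filter (fun T => i ∈ T ∨ j ∈ T),
        (1 / 2 : ℝ) ^ T.card * (1 / 2) ^ (r + 1) := by
        rw [← mul_sum, hS]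

/-- the pairs of one term -/
private theorem FarOr_pairs (hR : RefF o q F k L) {T : Finset (Fin n)} (hT : T ∈ F) {a : ℝ}
    (ha : 0 ≤ a) :
    ∑ i, ∑ j ∈ nbr F i, (if i ∈ T ∨ j ∈ T then a else 0) ≤ 2 * k * (L : ℝ) ^ 2 * a := by
  classical
  have h1 : ∑ i, ∑ j ∈ nbr F i, (if i ∈ T then a else 0) ≤ k * (L : ℝ) ^ 2 * a := by
    calc ∑ i, ∑ j ∈ nbr F i, (if i ∈ T then a else 0)
        = ∑ i, ((nbr F i).card : ℝ) * (if i ∈ T then a else 0) := by
          refine sum_congr rfl fun i _ => ?_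
          rw [sum_const, nsmul_eq_mul]
      _ ≤ ∑ i, ((k * L : ℕ) : ℝ) * (if i ∈ T then a else 0) := by
          refine sum_le_sum fun i _ => mul_le_mul_of_nonneg_right ?_ ?_
          · exact_mod_cast nbr_card hR
          · split_ifs
            · exact ha
            · exact le_rfl
      _ = ((k * L : ℕ) : ℝ) * (T.card * a) := by
          rw [← mul_sum, ← sum_filter, sum_const, nsmul_eq_mul]
          congr 3
          exact congrArg _ (by ext i; simp)
      _ ≤ ((k * L : ℕ) : ℝ) * (L * a) := by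
          refine mul_le_mul_of_nonneg_left (mul_le_mul_of_nonneg_right ?_ ha) (by positivity)
          exact_mod_cast hR.len T hT
      _ = k * (L : ℝ) ^ 2 * a := by
          push_cast
          ring
  have h2 : ∑ i, ∑ j ∈ nbr F i, (if j ∈ T then a else 0) =
      ∑ i, ∑ j ∈ nbr F i, (if i ∈ T then a else 0) := by
    refine sum_comm' fun i j => ?_
    rw [mem_nbr, mem_nbr]
    constructor
    · rintro ⟨-, S, hS, h3, h4⟩
      exact ⟨⟨S, hS, h4, h3⟩, mem_univ _⟩
    · rintro ⟨⟨S, hS, h3, h4⟩, -⟩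
      exact ⟨mem_univ _, S, hS, h4, h3⟩
  calc ∑ i, ∑ j ∈ nbr F i, (if i ∈ T ∨ j ∈ T then a else 0)
      ≤ ∑ i, ∑ j ∈ nbr F i, ((if i ∈ T then a else 0) + (if j ∈ T then a else 0)) := by
        refine sum_le_sum fun i _ => sum_le_sum fun j _ => ?_
        by_cases hi : i ∈ T <;> by_cases hj : j ∈ T
        · rw [if_pos (Or.inl hi), if_pos hi, if_pos hj]
          linarith
        · rw [if_pos (Or.inl hi), if_pos hi, if_neg hj, add_zero]
        · rw [if_pos (Or.inr hj), if_neg hi, if_pos hj, zero_add]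
        · rw [if_neg (not_or.2 ⟨hi, hj⟩), if_neg hi, if_neg hj, add_zero]
    _ = ∑ i, ∑ j ∈ nbr F i, (if i ∈ T then a else 0) +
        ∑ i, ∑ j ∈ nbr F i, (if j ∈ T then a else 0) := by
        rw [← sum_add_distrib]
        refine sum_congr rfl fun i _ => ?_
        rw [sum_add_distrib]
    _ ≤ k * (L : ℝ) ^ 2 * a + k * (L : ℝ) ^ 2 * a := by
        rw [h2]
        exact add_le_add h1 h1
    _ = 2 * k * (L : ℝ) ^ 2 * a := by ring

/- PROOF. `x ∈ orP i j`, `j ∈ nbr F i` (so `i ∈ nbr F j`), `T', T'' ∈ F` hold at `x`,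
`r < (T'' \ T').card`. Each of `T', T''` contains `i` or `j` (`mem_or_mem`). So the sum over `i` and
`j ∈ nbr F i` of the number of these `x` is at most the sum over `T' ∈ F`, over the pairs `(i, j)` with
(`i ∈ T'` and `j ∈ nbr F i`) or (`j ∈ T'` and `i ∈ nbr F j`), at most `2 * (L * (k * L))` of them
(`nbr_card`, `hR.len`), over the `T'' ∈ F` with `i ∈ T''` or `j ∈ T''` (at most `2 k`) and
`r < (T'' \ T').card`, of the number of `x` at which `T'` and `T''` hold, at most
`(1/2) ^ |T'| * (1/2) ^ (r + 1) * 2 ^ n` (`far_pair`, from `pr_on` or a direct count). -/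
theorem far_or {r : ℕ} (hR : RefF o q F k L) :
    ∑ i, (orN o q h (Far o F r) (nbr F i) i : ℝ) / 2 ^ n ≤
      4 * (k : ℝ) ^ 2 * (L : ℝ) ^ 2 * (1 / 2 : ℝ) ^ (r + 1) * ∑ T ∈ F, (1 / 2 : ℝ) ^ T.card := by
  classical
  obtain ⟨a, ha⟩ : ∃ a : Finset (Fin n) → ℝ, ∀ T, a T = (1 / 2 : ℝ) ^ T.card * (1 / 2) ^ (r + 1) :=
    ⟨_, fun _ => rfl⟩
  have ha0 : ∀ T, 0 ≤ a T := by
    intro T
    rw [ha]
    positivity
  have h1 : ∀ i, (orN o q h (Far o F r) (nbr F i) i : ℝ) / 2 ^ n ≤
      ∑ j ∈ nbr F i, 2 * k * ∑ T ∈ F, (if i ∈ T ∨ j ∈ T then a T else 0) := by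
    intro i
    have h2 : (orN o q h (Far o F r) (nbr F i) i : ℝ) / 2 ^ n =
        ∑ j ∈ nbr F i, (((orP o q h i j).filter (Far o F r)).card : ℝ) / 2 ^ n := by
      unfold orN
      push_cast
      rw [sum_div]
    rw [h2]
    refine sum_le_sum fun j _ => (FarOr_one hR i j).trans (le_of_eq ?_)
    rw [sum_filter]
    refine congrArg _ (sum_congr rfl fun T _ => ?_)
    rw [ha]
  calc ∑ i, (orN o q h (Far o F r) (nbr F i) i : ℝ) / 2 ^ n
      ≤ ∑ i, ∑ j ∈ nbr F i, 2 * k * ∑ T ∈ F, (if i ∈ T ∨ j ∈ T then a T else 0) :=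
        sum_le_sum fun i _ => h1 i
    _ = 2 * k * ∑ T ∈ F, ∑ i, ∑ j ∈ nbr F i, (if i ∈ T ∨ j ∈ T then a T else 0) := by
        rw [sum_comm, mul_sum]
        refine sum_congr rfl fun i _ => ?_
        rw [← mul_sum]
        congr 1
        rw [sum_comm]
    _ ≤ 2 * k * ∑ T ∈ F, 2 * k * (L : ℝ) ^ 2 * a T := by
        refine mul_le_mul_of_nonneg_left ?_ (by positivity)
        exact sum_le_sum fun T hT => FarOr_pairs hR hT (ha0 T)
    _ = 4 * (k : ℝ) ^ 2 * (L : ℝ) ^ 2 * (1 / 2 : ℝ) ^ (r + 1) *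
        ∑ T ∈ F, (1 / 2 : ℝ) ^ T.card := by
        rw [mul_sum, mul_sum]
        refine sum_congr rfl fun T _ => ?_
        rw [ha]
        ring

end Pool.Agent.H.MP_cba12a_lc.RL
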