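import Pool.Agent.H.MP_cba12a_lc.RL.LemA

/-!
The pairs of variables of which one can be switched off but not both, at points all of whose
satisfied terms are long and close to each other.
-/

namespace Pool.Agent.H.MP_cba12a_lc.RL

open Finset Pool.Agent.H.MP_cba12a_lc Pool.Agent.H.MP_cba12a_lc.RK

variable {n : ℕ} {o : Fin n → Bool} {q : (Fin n → Bool) → Bool} {F : Finset (Finset (Fin n))}
  {k L : ℕ} {rk : Finset (Fin n) → ℕ} {h : List (List Lit)}

open Classical in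
/-- the points all of whose satisfied terms are long and close to each other -/
noncomputable def nearS (o : Fin n → Bool) (q : (Fin n → Bool) → Bool)
    (F : Finset (Finset (Fin n))) (h : List (List Lit)) (r l : ℕ) : Finset (Fin n → Bool) :=
  (unc q h).filter fun x => ¬ Far o F r x ∧ ¬ Shr o F l x

theorem mem_nearS {r l : ℕ} {x : Fin n → Bool} :
    x ∈ nearS o q F h r l ↔ x ∈ unc q h ∧ ¬ Far o F r x ∧ ¬ Shr o F l x := by
  classical
  unfold nearS
  rw [mem_filter]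

/- PROOF. `hdown` for `nearS`: `satD_flp_off`, and a term which holds at `flp l x` holds at `x` (`on_off`). -/
theorem nearS_down {r l : ℕ} (hh : OrL o h) {x : Fin n → Bool} (hx : x ∈ nearS o q F h r l)
    (j : Fin n) (hj : x j = o j) (hq : q (flp j x) = true) : flp j x ∈ nearS o q F h r l := by
  rw [mem_nearS] at hx ⊢
  obtain ⟨hu, hF, hS⟩ := hx
  refine ⟨mem_unc.2 ⟨hq, satD_flp_off hh hj (mem_unc.1 hu).2⟩, ?_, ?_⟩
  · rintro ⟨T', hT', T'', hT'', hO', hO'', hc⟩
    exact hF ⟨T', hT', T'', hT'', ((on_off hj).1 hO').1, ((on_off hj).1 hO'').1, hc⟩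
  · rintro ⟨T, hT, hO, hc⟩
    exact hS ⟨T, hT, ((on_off hj).1 hO).1, hc⟩

/- PROOF. Let `x ∈ nearS`, `T := ft x`, `l' ∈ T \ piv x`, `T' := ft (flp l' x)`. Both hold at `x`
(`on_off`), so `|T' \ T| ≤ r`, `|T \ T'| ≤ r`, `|T|, |T'| ≥ l ≥ 2 r`, so `|T ∩ T'| ≥ |T| - r ≥ |T| / 2`
and `|T'| ≤ |T ∩ T'| + r ≤ 2 |T ∩ T'|`. -/
theorem near_two {r l : ℕ} (hR : RefF o q F k L) (hl : 2 * r ≤ l) {x : Fin n → Bool}
    (hx : x ∈ nearS o q F h r l) {j : Fin n} (hj : j ∈ ft o F rk x \ piv o q x) :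
    (ft o F rk x).card ≤ 2 * (ft o F rk x ∩ ft o F rk (flp j x)).card ∧
      (ft o F rk (flp j x)).card ≤ 2 * (ft o F rk x ∩ ft o F rk (flp j x)).card := by
  rw [mem_nearS] at hx
  obtain ⟨hu, hF, hS⟩ := hx
  obtain ⟨hT, hO, _⟩ := ft_spec (rk := rk) hR (mem_unc.1 hu).1
  rw [mem_sdiff] at hj
  have hjo : x j = o j := hO j hj.1
  have hq : q (flp j x) = true := by
    by_contra hc
    rw [Bool.not_eq_true] at hc
    exact hj.2 (mem_piv.2 ⟨hjo, hc⟩)
  obtain ⟨hT', hO', _⟩ := ft_spec (rk := rk) hR hq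
  have hO2 := ((on_off hjo).1 hO').1
  have h1 : (ft o F rk x \ ft o F rk (flp j x)).card ≤ r := by
    by_contra hc
    exact hF ⟨_, hT', _, hT, hO2, hO, not_le.1 hc⟩
  have h2 : (ft o F rk (flp j x) \ ft o F rk x).card ≤ r := by
    by_contra hc
    exact hF ⟨_, hT, _, hT', hO, hO2, not_le.1 hc⟩
  have h3 : l ≤ (ft o F rk x).card := by
    by_contra hc
    exact hS ⟨_, hT, hO, not_le.1 hc⟩
  have h4 : l ≤ (ft o F rk (flp j x)).card := by
    by_contra hc
    exact hS ⟨_, hT', hO2, not_le.1 hc⟩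
  have h5 := card_inter_add_card_sdiff (ft o F rk x) (ft o F rk (flp j x))
  have h6 := card_inter_add_card_sdiff (ft o F rk (flp j x)) (ft o F rk x)
  rw [inter_comm (ft o F rk (flp j x))] at h6
  omega

/- PROOF. `lemA` with `𝒱 := nearS`, `S := ∑_𝒱 |ft x|`. By `near_two`, `∑_𝒱 |ft \ piv| * |ft| ≤ 2 κ S`;
with `|ft x| ≥ l ≥ 4 κ`: `4 κ ∑_𝒱 |ft \ piv| ≤ 2 κ S`; if `κ > 0` then `2 ∑_𝒱 |ft \ piv| ≤ S`, if
`κ = 0` then `∑_𝒱 |ft \ piv| * |ft| ≤ 0`; in this case if `ft x \ piv x` is nonempty then `ft x` is, so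
`∑_𝒱 |ft \ piv| = 0`. So `S ≤ 2 ∑_𝒱 |piv x|` (`piv x ⊆ ft x`) `≤ 2 ∑_i |pvS i|` (`sum_pvS`). -/
theorem near_len {κ r l : ℕ} (hR : RefF o q F k L) (hrk : Function.Injective rk) (hh : OrL o h)
    (hk : k ≤ 2 ^ κ) (hl : 2 * r ≤ l) (hl' : 4 * κ ≤ l) :
    ∑ x ∈ nearS o q F h r l, (ft o F rk x).card ≤ 2 * ∑ i, (pvS o q h i).card := by
  have hV : ∀ x ∈ nearS o q F h r l, q x = true := fun x hx => (mem_unc.1 (mem_nearS.1 hx).1).1
  have hlen : ∀ x ∈ nearS o q F h r l, l ≤ (ft o F rk x).card := by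
    intro x hx
    obtain ⟨hT, hO, _⟩ := ft_spec (rk := rk) hR (hV x hx)
    by_contra hc
    exact (mem_nearS.1 hx).2.2 ⟨_, hT, hO, not_le.1 hc⟩
  have hps : ∀ x ∈ nearS o q F h r l, piv o q x ⊆ ft o F rk x := by
    intro x hx
    obtain ⟨hT, hO, _⟩ := ft_spec (rk := rk) hR (hV x hx)
    exact piv_sub hR hT hO
  have hA := lemA (rk := rk) hR hrk hk hV (fun x hx j hj hq => nearS_down hh hx j hj hq)
  have hB : ∑ x ∈ nearS o q F h r l, (ft o F rk x \ piv o q x).card * (ft o F rk x).card ≤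
      2 * (κ * ∑ x ∈ nearS o q F h r l, (ft o F rk x).card) := by
    refine le_trans ?_ (Nat.mul_le_mul_left 2 hA)
    rw [mul_sum]
    refine sum_le_sum fun x hx => ?_
    rw [mul_sum, ← smul_eq_mul, ← sum_const]
    exact sum_le_sum fun j hj => (near_two hR hl hx hj).1
  have hC : 2 * ∑ x ∈ nearS o q F h r l, (ft o F rk x \ piv o q x).card ≤
      ∑ x ∈ nearS o q F h r l, (ft o F rk x).card := by
    rcases Nat.eq_zero_or_pos κ with h0 | h0
    · subst h0
      rw [zero_mul, mul_zero, Nat.le_zero, sum_eq_zero_iff] at hB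
      have h1 : ∑ x ∈ nearS o q F h r l, (ft o F rk x \ piv o q x).card = 0 := by
        refine sum_eq_zero fun x hx => ?_
        rcases Nat.mul_eq_zero.1 (hB x hx) with h2 | h2
        · exact h2
        · exact Nat.le_zero.1 (h2 ▸ card_le_card sdiff_subset)
      rw [h1, mul_zero]
      exact Nat.zero_le _
    · have h1 : 4 * κ * ∑ x ∈ nearS o q F h r l, (ft o F rk x \ piv o q x).card ≤
          ∑ x ∈ nearS o q F h r l, (ft o F rk x \ piv o q x).card * (ft o F rk x).card := by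
        rw [mul_sum]
        refine sum_le_sum fun x hx => ?_
        rw [mul_comm]
        exact Nat.mul_le_mul_left _ (hl'.trans (hlen x hx))
      have h2 := h1.trans hB
      have h3 : 2 * κ * (2 * ∑ x ∈ nearS o q F h r l, (ft o F rk x \ piv o q x).card) ≤
          2 * κ * ∑ x ∈ nearS o q F h r l, (ft o F rk x).card := by
        calc _ = 4 * κ * ∑ x ∈ nearS o q F h r l, (ft o F rk x \ piv o q x).card := by ring
          _ ≤ _ := h2
          _ = _ := by ring
      exact Nat.le_of_mul_le_mul_left h3 (by omega)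
  have hD : ∑ x ∈ nearS o q F h r l, (ft o F rk x).card =
      ∑ x ∈ nearS o q F h r l, (ft o F rk x \ piv o q x).card +
        ∑ x ∈ nearS o q F h r l, (piv o q x).card := by
    rw [← sum_add_distrib]
    exact sum_congr rfl fun x hx => (card_sdiff_add_card_eq_card (hps x hx)).symm
  have hE : ∑ x ∈ nearS o q F h r l, (piv o q x).card ≤ ∑ i, (pvS o q h i).card := by
    rw [sum_pvS]
    exact sum_le_sum_of_subset fun x hx => (mem_nearS.1 hx).1
  omega

open Classical in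
private theorem NearOr_sum {r l : ℕ} (hR : RefF o q F k L) (P : (Fin n → Bool) → Prop)
    (hP : ∀ x, P x → ¬ Far o F r x ∧ ¬ Shr o F l x) :
    ∑ i, orN o q h P univ i ≤
      ∑ x ∈ nearS o q F h r l, ∑ i, ∑ j, (if x ∈ orP o q h i j then 1 else 0) := by
  rw [sum_comm]
  refine sum_le_sum fun i _ => ?_
  rw [sum_comm]
  unfold orN
  refine sum_le_sum fun j _ => ?_
  rw [← card_filter]
  refine card_le_card fun x hx => ?_
  rw [mem_filter] at hx ⊢
  exact ⟨mem_nearS.2 ⟨mem_unc.2 ⟨q_orP hR hx.1, (mem_orP.1 hx.1).2.2.1⟩, (hP x hx.2).1,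
    (hP x hx.2).2⟩, hx.1⟩

/- PROOF. Let `x ∈ orP i j`, `x ∈ nearS`, `T := ft x`. `i ∈ T` or `j ∈ T` (`mem_or_mem`); if `i ∈ T` then
`i ∈ T \ piv x` (`q (flp i x) = true`) and `j ∈ piv (flp i x) ⊆ ft (flp i x)` (`piv_sub`, `ft_spec`;
`flp_comm`, `ne_orP`). So the number of ordered pairs at `x` is at most
`2 ∑ l ∈ T \ piv x, |ft (flp l x)| ≤ 4 ∑ l ∈ T \ piv x, |T ∩ ft (flp l x)|` (`near_two`); sum over
`x ∈ nearS`: `lemA` gives `≤ 4 κ ∑ |ft x| ≤ 8 κ ∑_i |pvS i|` (`near_len`). The pairs with `i` and `j`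
exchanged are counted by `orP_symm`. Every `x ∈ orP i j` with `¬ Far`, `¬ Shr` lies in `nearS`. -/
theorem near_or {κ r l : ℕ} (hR : RefF o q F k L) (hrk : Function.Injective rk) (hh : OrL o h)
    (hk : k ≤ 2 ^ κ) (hl : 2 * r ≤ l) (hl' : 4 * κ ≤ l) :
    ∑ i, orN o q h (fun x => ¬ Far o F r x ∧ ¬ Shr o F l x) univ i ≤
      8 * κ * ∑ i, (pvS o q h i).card := by
  classical
  have hV : ∀ x ∈ nearS o q F h r l, q x = true := fun x hx => (mem_unc.1 (mem_nearS.1 hx).1).1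
  have hA := lemA (rk := rk) hR hrk hk hV (fun x hx j hj hq => nearS_down hh hx j hj hq)
  have hpt : ∀ x ∈ nearS o q F h r l, ∑ i, ∑ j, (if x ∈ orP o q h i j then 1 else 0) ≤
      4 * ∑ j ∈ ft o F rk x \ piv o q x, (ft o F rk x ∩ ft o F rk (flp j x)).card := by
    intro x hx
    obtain ⟨hT, hO, _⟩ := ft_spec (rk := rk) hR (hV x hx)
    have h1 : ∑ i, ∑ j, (if x ∈ orP o q h i j then 1 else 0) ≤
        ∑ i, ∑ j, (if i ∈ ft o F rk x \ piv o q x ∧ j ∈ ft o F rk (flp i x) then 1 else 0) +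
        ∑ i, ∑ j, (if j ∈ ft o F rk x \ piv o q x ∧ i ∈ ft o F rk (flp j x) then 1 else 0) := by
      rw [← sum_add_distrib]
      refine sum_le_sum fun i _ => ?_
      rw [← sum_add_distrib]
      refine sum_le_sum fun j _ => ?_
      have key : ∀ i j, x ∈ orP o q h i j → i ∈ ft o F rk x →
          i ∈ ft o F rk x \ piv o q x ∧ j ∈ ft o F rk (flp i x) := by
        intro i j hor hi
        have hne := ne_orP hR hor
        rw [mem_orP] at hor
        obtain ⟨h1, h2, h3, h4, h5, h6⟩ := hor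
        refine ⟨mem_sdiff.2 ⟨hi, fun hc => ?_⟩, ?_⟩
        · rw [mem_piv, h4] at hc
          exact absurd hc.2 (by simp)
        · obtain ⟨hT', hO', _⟩ := ft_spec (rk := rk) hR h4
          refine piv_sub hR hT' hO' (mem_piv.2 ⟨?_, ?_⟩)
          · rw [flp_ne hne.symm, h2]
          · rw [← flp_comm hne.symm, h6]
      by_cases hor : x ∈ orP o q h i j
      · rcases mem_or_mem hR hor hT hO with hi | hj
        · rw [if_pos hor, if_pos (key i j hor hi)]
          exact Nat.le_add_right _ _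
        · rw [if_pos hor, if_pos (key j i (orP_symm hor) hj)]
          exact Nat.le_add_left _ _
      · rw [if_neg hor]
        exact Nat.zero_le _
    have h2 : ∑ i, ∑ j, (if j ∈ ft o F rk x \ piv o q x ∧ i ∈ ft o F rk (flp j x) then 1 else 0) =
        ∑ i, ∑ j, (if i ∈ ft o F rk x \ piv o q x ∧ j ∈ ft o F rk (flp i x) then 1 else 0) :=
      sum_comm
    have h3 : ∑ i, ∑ j, (if i ∈ ft o F rk x \ piv o q x ∧ j ∈ ft o F rk (flp i x) then 1 else 0) =
        ∑ i ∈ ft o F rk x \ piv o q x, (ft o F rk (flp i x)).card := by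
      rw [← sum_filter_add_sum_filter_not univ (fun i => i ∈ ft o F rk x \ piv o q x)]
      rw [filter_mem_eq_inter, univ_inter]
      have h4 : ∑ i ∈ univ.filter (fun i => ¬ i ∈ ft o F rk x \ piv o q x),
          ∑ j, (if i ∈ ft o F rk x \ piv o q x ∧ j ∈ ft o F rk (flp i x) then 1 else 0) = 0 := by
        refine sum_eq_zero fun i hi => sum_eq_zero fun j _ => ?_
        rw [if_neg]
        exact fun hc => (mem_filter.1 hi).2 hc.1
      rw [h4, add_zero]
      refine sum_congr rfl fun i hi => ?_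
      rw [card_eq_sum_ones, ← sum_filter]
      refine sum_congr ?_ fun _ _ => rfl
      ext j
      rw [mem_filter]
      exact ⟨fun hj => hj.2.2, fun hj => ⟨mem_univ _, hi, hj⟩⟩
    have h5 : ∑ i ∈ ft o F rk x \ piv o q x, (ft o F rk (flp i x)).card ≤
        2 * ∑ j ∈ ft o F rk x \ piv o q x, (ft o F rk x ∩ ft o F rk (flp j x)).card := by
      rw [mul_sum]
      exact sum_le_sum fun j hj => (near_two hR hl hx hj).2
    rw [h2, h3] at h1
    omega
  have hsum : ∑ i, orN o q h (fun x => ¬ Far o F r x ∧ ¬ Shr o F l x) univ i ≤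
      ∑ x ∈ nearS o q F h r l, ∑ i, ∑ j, (if x ∈ orP o q h i j then 1 else 0) :=
    NearOr_sum hR _ fun x hx => hx
  have hL := near_len (rk := rk) hR hrk hh hk hl hl'
  calc ∑ i, orN o q h (fun x => ¬ Far o F r x ∧ ¬ Shr o F l x) univ i
      ≤ ∑ x ∈ nearS o q F h r l, ∑ i, ∑ j, (if x ∈ orP o q h i j then 1 else 0) := hsum
    _ ≤ ∑ x ∈ nearS o q F h r l,
        4 * ∑ j ∈ ft o F rk x \ piv o q x, (ft o F rk x ∩ ft o F rk (flp j x)).card :=
        sum_le_sum hpt
    _ = 4 * ∑ x ∈ nearS o q F h r l,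
        ∑ j ∈ ft o F rk x \ piv o q x, (ft o F rk x ∩ ft o F rk (flp j x)).card := by
        rw [mul_sum]
    _ ≤ 4 * (κ * ∑ x ∈ nearS o q F h r l, (ft o F rk x).card) := Nat.mul_le_mul_left _ hA
    _ ≤ 4 * (κ * (2 * ∑ i, (pvS o q h i).card)) :=
        Nat.mul_le_mul_left _ (Nat.mul_le_mul_left _ hL)
    _ = 8 * κ * ∑ i, (pvS o q h i).card := by ring

end Pool.Agent.H.MP_cba12a_lc.RL
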