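import Pool.Agent.H.MP_cba12a_lc.RL.Defs

/-!
The pairs of variables of which one can be switched off but not both, at points all of whose
satisfied terms are short.
-/

namespace Pool.Agent.H.MP_cba12a_lc.RL

open Finset Pool.Agent.H.MP_cba12a_lc Pool.Agent.H.MP_cba12a_lc.RK

variable {n : ℕ} {o : Fin n → Bool} {q : (Fin n → Bool) → Bool} {F : Finset (Finset (Fin n))}
  {k L : ℕ} {rk : Finset (Fin n) → ℕ} {h : List (List Lit)}

/- PROOF. Let `x ∈ orP i j`, `¬ Far`, `Shr l`: a term `T0` with `|T0| < l` holds at `x`. Let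
`y := flp j x`: `y ∈ pvS i` (`mem_pvS'`: `q y = true`, `satD_flp_off`, `y i = o i` by `ne_orP`,
`q (flp i y) = false`). `ft y` holds at `y`, so at `x` (`on_off`), so `|ft y \ T0| ≤ r` and
`|ft y| ≤ |T0| + r < l + r`. The map `x ↦ flp j x` is injective for every `j`; there are at most
`k * L` values of `j` (`nbr_card`), and the `y ∈ pvS i` with `|ft y| < l + r` are counted by the sum on
the right (`fstT_iff`, disjoint union over `T = ft y`, which contains `i` by `piv_sub`). -/
theorem short_or {r l : ℕ} (hR : RefF o q F k L) (hrk : Function.Injective rk) (hh : OrL o h)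
    (i : Fin n) :
    orN o q h (fun x => ¬ Far o F r x ∧ Shr o F l x) (nbr F i) i ≤
      k * L * ∑ T ∈ F.filter (fun T => i ∈ T ∧ T.card < l + r), (fstT o q F rk h i T).card := by
  classical
  obtain ⟨Y, hY⟩ : ∃ Y : Finset (Fin n → Bool),
      Y = (F.filter fun T => i ∈ T ∧ T.card < l + r).biUnion fun T => fstT o q F rk h i T :=
    ⟨_, rfl⟩
  have hYc : Y.card ≤ ∑ T ∈ F.filter (fun T => i ∈ T ∧ T.card < l + r),
      (fstT o q F rk h i T).card := by
    rw [hY]
    exact card_biUnion_le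
  unfold orN
  refine (sum_le_sum (g := fun _ => Y.card) fun j _ => ?_).trans ?_
  · refine card_le_card_of_injOn (flp j) ?_ (fun x _ y _ hxy => flp_inj j hxy)
    intro x hx
    have hx := (@mem_filter _ _ (fun a => Classical.propDecidable _) _ _).1 (mem_coe.1 hx)
    obtain ⟨hx, hfar, T0, hT0, hO0, hc0⟩ := hx
    have hij := ne_orP hR hx
    have hx' := mem_orP.1 hx
    have hy : flp j x ∈ pvS o q h i := by
      rw [mem_pvS', mem_unc, mem_piv]
      refine ⟨⟨hx'.2.2.2.2.1, satD_flp_off hh hx'.2.1 hx'.2.2.1⟩, ?_, hx'.2.2.2.2.2⟩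
      rw [flp_ne hij, hx'.1]
    have hs := ft_spec (rk := rk) hR hx'.2.2.2.2.1
    have hO : On o (ft o F rk (flp j x)) x := ((on_off hx'.2.1).1 hs.2.1).1
    have hcard : (ft o F rk (flp j x)).card < l + r := by
      have h1 : (ft o F rk (flp j x) \ T0).card ≤ r := by
        by_contra hcon
        exact hfar ⟨T0, hT0, _, hs.1, hO0, hO, not_le.1 hcon⟩
      have h2 := card_le_card_sdiff_add_card (t := T0) (s := ft o F rk (flp j x))
      omega
    have hi : i ∈ ft o F rk (flp j x) :=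
      piv_sub hR hs.1 hs.2.1 (mem_pvS'.1 hy).2
    rw [mem_coe, hY, mem_biUnion]
    exact ⟨_, mem_filter.2 ⟨hs.1, hi, hcard⟩, (fstT_iff hR hrk hs.1).2 ⟨hy, rfl⟩⟩
  · rw [sum_const, smul_eq_mul]
    exact Nat.mul_le_mul (nbr_card hR) hYc

end Pool.Agent.H.MP_cba12a_lc.RL
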