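import Pool.Agent.H.MP_cba12a_lc.RL.Defs

/-!
The signal `|cU| - |cD|` counts the pairs of pivotal variables minus the pairs of which one can be
switched off but not both.
-/

namespace Pool.Agent.H.MP_cba12a_lc.RL

open Finset Pool.Agent.H.MP_cba12a_lc Pool.Agent.H.MP_cba12a_lc.RK

variable {n : ℕ} {o : Fin n → Bool} {q : (Fin n → Bool) → Bool} {F : Finset (Finset (Fin n))}
  {k L : ℕ} {rk : Finset (Fin n) → ℕ} {h : List (List Lit)} {i j : Fin n}

/- PROOF. `flp j` maps `cD i j` injectively (`flp_inj`) into the disjoint union of `orP i j` and the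
`x ∈ cU i j` with `j ∉ piv x`: for `y ∈ cD`, `x := flp j y`: `x j = o j`, `x i = o i`, `q (flp j x) = true`,
`q (flp i (flp j x)) = false`, `x` is outside `h`, `q x = true` (`q_of_off`); either
`q (flp i x) = true`, so `x ∈ orP i j`, or `q (flp i x) = false`, so `x ∈ pvS i`. The other `x ∈ cU` are
the `x ∈ pvS i` with `j ∈ piv x`. -/
theorem sig (hR : RefF o q F k L) (hj : j ≠ i) :
    ((pvS o q h i).filter fun x => j ∈ piv o q x).card + (cD o q h i j).card ≤
      (cU o q h i j).card + (orP o q h i j).card := by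
  classical
  have h1 : (pvS o q h i).filter (fun x => j ∈ piv o q x) =
      (cU o q h i j).filter (fun x => j ∈ piv o q x) := by
    ext x
    rw [mem_filter, mem_filter, mem_pvS, mem_cU]
    constructor
    · rintro ⟨h2, h3⟩
      exact ⟨⟨h2, (mem_piv.1 h3).1⟩, h3⟩
    · rintro ⟨⟨h2, _⟩, h3⟩
      exact ⟨h2, h3⟩
  have h2 : (cD o q h i j).image (flp j) ⊆
      orP o q h i j ∪ (cU o q h i j).filter (fun x => ¬ j ∈ piv o q x) := by
    intro x hx
    obtain ⟨y, hy, rfl⟩ := mem_image.1 hx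
    obtain ⟨y1, y2, y3, y4, y5⟩ := mem_cD.1 hy
    have x1 : flp j y j = o j := by
      rw [flp_same, y1, Bool.not_not]
    have x2 : flp j y i = o i := by
      rw [flp_ne hj.symm, y2]
    have x3 : q (flp j y) = true := q_of_off hR x1 (by rw [flp_flp]; exact y3)
    rw [mem_union]
    by_cases h3 : q (flp i (flp j y)) = true
    · left
      rw [mem_orP, flp_flp]
      exact ⟨x2, x1, y5, h3, y3, y4⟩
    · right
      rw [mem_filter, mem_cU, mem_piv, flp_flp]
      refine ⟨⟨pv_iff.2 ⟨x2, x3, y5, by simpa using h3, sat_nil _⟩, x1⟩, ?_⟩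
      rintro ⟨_, h4⟩
      rw [y3] at h4
      exact absurd h4 (by simp)
  have h3 : (cD o q h i j).card ≤ (orP o q h i j).card +
      ((cU o q h i j).filter (fun x => ¬ j ∈ piv o q x)).card := by
    rw [← card_image_of_injective _ (flp_inj j)]
    exact (card_le_card h2).trans (card_union_le _ _)
  have h4 := card_filter_add_card_filter_not (s := cU o q h i j) (fun x => j ∈ piv o q x)
  rw [h1]
  omega

/- PROOF. `∑ x ∈ pvS i, |piv x \ i \ V| = ∑ j, j ≠ i, j ∉ V, #{x ∈ pvS i | j ∈ piv x}`, only the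
`j ∈ nbr F i` contribute (`ft_spec`, `piv_sub`: `i, j ∈ piv x ⊆ ft x ∈ F`, `mem_nbr`). By `sig` and `hV`,
`k L #{..} ≤ M + k L |orP i j|`; sum over the at most `k L` values of `j`, divide by `k L` (if
`nbr F i` is empty the left side is `0`). -/
theorem sig_sum (hR : RefF o q F k L) {V : Finset (Fin n)}
    (hV : ∀ j, j ≠ i → j ∉ V → k * L * (cU o q h i j).card ≤
      k * L * (cD o q h i j).card + (pvS o q h i).card) :
    ∑ x ∈ pvS o q h i, ((piv o q x).erase i \ V).card ≤
      (pvS o q h i).card + ∑ j ∈ nbr F i, (orP o q h i j).card := by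
  classical
  have h1 : ∀ x ∈ pvS o q h i, ((piv o q x).erase i \ V).card =
      ∑ j ∈ (nbr F i).erase i \ V, if j ∈ piv o q x then 1 else 0 := by
    intro x hx
    rw [← card_filter]
    congr 1
    ext j
    rw [mem_sdiff, mem_erase, mem_filter, mem_sdiff, mem_erase]
    constructor
    · rintro ⟨⟨h2, h3⟩, h4⟩
      refine ⟨⟨⟨h2, ?_⟩, h4⟩, h3⟩
      have h5 := mem_pvS'.1 hx
      have h6 := ft_spec (rk := fun _ => 0) hR (mem_unc.1 h5.1).1
      have h7 := piv_sub hR h6.1 h6.2.1
      exact mem_nbr.2 ⟨_, h6.1, h7 h5.2, h7 h3⟩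
    · rintro ⟨⟨⟨h2, _⟩, h4⟩, h3⟩
      exact ⟨⟨h2, h3⟩, h4⟩
  rw [sum_congr rfl h1, sum_comm]
  have h2 : ∀ j ∈ (nbr F i).erase i \ V, (∑ x ∈ pvS o q h i, if j ∈ piv o q x then 1 else 0) =
      ((pvS o q h i).filter fun x => j ∈ piv o q x).card := by
    intro j _
    rw [card_filter]
  rw [sum_congr rfl h2]
  have h3 : ∀ j ∈ (nbr F i).erase i \ V,
      k * L * ((pvS o q h i).filter fun x => j ∈ piv o q x).card ≤
        (pvS o q h i).card + k * L * (orP o q h i j).card := by
    intro j hj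
    rw [mem_sdiff, mem_erase] at hj
    have h4 := Nat.mul_le_mul_left (k * L) (sig (h := h) hR hj.1.1)
    have h5 := hV j hj.1.1 hj.2
    rw [mul_add, mul_add] at h4
    omega
  have h4 : ((nbr F i).erase i \ V) ⊆ nbr F i := sdiff_subset.trans (erase_subset _ _)
  have h5 : ((nbr F i).erase i \ V).card ≤ k * L := (card_le_card h4).trans (nbr_card hR)
  have h6 : ∑ j ∈ (nbr F i).erase i \ V, (orP o q h i j).card ≤
      ∑ j ∈ nbr F i, (orP o q h i j).card :=
    sum_le_sum_of_subset h4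
  rcases Nat.eq_zero_or_pos (k * L) with h0 | h0
  · rw [h0, Nat.le_zero, card_eq_zero] at h5
    rw [h5, sum_empty]
    exact Nat.zero_le _
  · refine Nat.le_of_mul_le_mul_left ?_ h0
    rw [mul_sum]
    refine (sum_le_sum h3).trans ?_
    rw [sum_add_distrib, sum_const, smul_eq_mul, ← mul_sum, mul_add]
    exact Nat.add_le_add (Nat.mul_le_mul_right _ h5) (Nat.mul_le_mul_left _ h6)

end Pool.Agent.H.MP_cba12a_lc.RL
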