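import Pool.Agent.H.MP_cba12a_lc.RL.A0
import Pool.Agent.H.MP_cba12a_lc.RL.Sig
import Pool.Agent.H.MP_cba12a_lc.RL.ShortOr

/-!
A good term almost all of whose variables are visible.
-/

namespace Pool.Agent.H.MP_cba12a_lc.RL

open Finset Pool.Agent.H.MP_cba12a_lc Pool.Agent.H.MP_cba12a_lc.RK

variable {n : ℕ} {o : Fin n → Bool} {q : (Fin n → Bool) → Bool} {F : Finset (Finset (Fin n))}
  {k L r s l κ Λ Λ0 : ℕ} {rk : Finset (Fin n) → ℕ} {h : List (List Lit)} {i : Fin n}

private theorem kL_pos (hR : RefF o q F k L) (hrk : Function.Injective rk)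
    (hM : 0 < (pvS o q h i).card) : 0 < k ∧ 0 < L := by
  classical
  have hsum := sum_fstT hR hrk (h := h) (i := i)
  have hne : (F.filter fun T => i ∈ T).Nonempty := by
    rw [nonempty_iff_ne_empty]
    intro h0
    rw [h0, sum_empty] at hsum
    omega
  obtain ⟨T0, hT0⟩ := hne
  have hT0' := mem_filter.1 hT0
  exact ⟨lt_of_lt_of_le (card_pos.2 ⟨T0, hT0⟩) (hR.read i),
    lt_of_lt_of_le (card_pos.2 ⟨i, hT0'.2⟩) (hR.len T0 hT0'.1)⟩

private theorem vis_arith (M Q a b c : ℕ) (hM : 0 < M)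
    (hE : (4 * Q + 1) * M ≤ c + ((4 * Q + 1) * a + (4 * Q + 1) * b)) (hC : c ≤ Q * M)
    (ha : 4 * a ≤ M) (hb : 2 * b ≤ M) : False := by
  have h8 : 4 * (a + b) ≤ 3 * M := by omega
  have h9 := Nat.mul_le_mul_left (4 * Q + 1) h8
  have h10 : (4 * Q + 1) * (4 * (a + b)) = 4 * ((4 * Q + 1) * a + (4 * Q + 1) * b) := by ring
  have h11 : 4 * ((4 * Q + 1) * M) ≤ 4 * (Q * M) + (4 * Q + 1) * (3 * M) := by
    rw [h10] at h9
    omega
  nlinarith

private theorem short_arith (M K A B C : ℕ) (hS : M < K * C * (A + B))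
    (hA : 4 * K * C * A ≤ M) (hB : 2 * (K * C) * B ≤ M) : False := by
  have h1 : 4 * (K * C * (A + B)) = 4 * K * C * A + 2 * (2 * (K * C) * B) := by ring
  omega

private theorem orN_cover {P Q R : (Fin n → Bool) → Prop} (hP : ∀ x, P x ∨ Q x ∨ R x)
    (J : Finset (Fin n)) : ∑ j ∈ J, (orP o q h i j).card ≤
      orN o q h P J i + orN o q h Q J i + orN o q h R J i := by
  classical
  unfold orN
  rw [← sum_add_distrib, ← sum_add_distrib]
  refine sum_le_sum fun j _ => ?_
  refine le_trans (card_le_card ?_)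
    ((card_union_le _ _).trans (Nat.add_le_add_right (card_union_le _ _) _))
  intro x hx
  rw [mem_union, mem_union, mem_filter, mem_filter, mem_filter]
  rcases hP x with h1 | h1 | h1
  · exact Or.inl (Or.inl ⟨hx, h1⟩)
  · exact Or.inl (Or.inr ⟨hx, h1⟩)
  · exact Or.inr ⟨hx, h1⟩

/-- the pairs at a point with `Far`, or with neither `Far` nor `Shr`, or with `Shr` only -/
private theorem or_split : ∑ j ∈ nbr F i, (orP o q h i j).card ≤
    orN o q h (fun x => ¬ Far o F r x ∧ ¬ Shr o F l x) univ i +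
      orN o q h (Far o F r) (nbr F i) i +
      orN o q h (fun x => ¬ Far o F r x ∧ Shr o F l x) (nbr F i) i := by
  have h1 : orN o q h (fun x => ¬ Far o F r x ∧ ¬ Shr o F l x) (nbr F i) i ≤
      orN o q h (fun x => ¬ Far o F r x ∧ ¬ Shr o F l x) univ i := by
    unfold orN
    exact sum_le_sum_of_subset (subset_univ _)
  refine le_trans (orN_cover ?_ _) (Nat.add_le_add_right (Nat.add_le_add_right h1 _) _)
  intro x
  by_cases h2 : Far o F r x
  · exact Or.inr (Or.inl h2)
  · by_cases h3 : Shr o F l x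
    · exact Or.inr (Or.inr ⟨h2, h3⟩)
    · exact Or.inl ⟨h2, h3⟩

/- PROOF. `T ∈ F`, `i ∈ T`: for `x ∈ fstT T`, `ft x = T` and
`T.erase i \ V ⊆ (T \ piv x) ∪ ((piv x).erase i \ V)`. Sum over `x` and `T` (`sum_fstT`, disjoint union,
`fstT_iff`): `≤ ∑_{x ∈ pvS i} |ft x \ piv x| + ∑_{x ∈ pvS i} |(piv x).erase i \ V|`; `a0`, `sig_sum`. -/
theorem vis_sum (hR : RefF o q F k L) (hrk : Function.Injective rk) (hh : OrL o h)
    (hk : k ≤ 2 ^ κ) {V : Finset (Fin n)}
    (hV : ∀ j, j ≠ i → j ∉ V → k * L * (cU o q h i j).card ≤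
      k * L * (cD o q h i j).card + (pvS o q h i).card) :
    ∑ T ∈ F.filter (fun T => i ∈ T), (fstT o q F rk h i T).card * (T.erase i \ V).card ≤
      (κ + 1) * (pvS o q h i).card + ∑ j ∈ nbr F i, (orP o q h i j).card := by
  classical
  have hmap : ∀ x ∈ pvS o q h i, ft o F rk x ∈ F.filter (fun T => i ∈ T) := by
    intro x hx
    have hx' := mem_pvS'.1 hx
    have h1 := ft_spec (rk := rk) hR (mem_unc.1 hx'.1).1
    exact mem_filter.2 ⟨h1.1, piv_sub hR h1.1 h1.2.1 hx'.2⟩
  have hfib : ∀ T ∈ F.filter (fun T => i ∈ T),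
      (pvS o q h i).filter (fun x => ft o F rk x = T) = fstT o q F rk h i T := by
    intro T hT
    ext x
    rw [mem_filter, fstT_iff hR hrk (mem_filter.1 hT).1]
  have h1 : ∑ T ∈ F.filter (fun T => i ∈ T),
      (fstT o q F rk h i T).card * (T.erase i \ V).card =
      ∑ x ∈ pvS o q h i, ((ft o F rk x).erase i \ V).card := by
    rw [← sum_fiberwise_of_maps_to hmap]
    refine sum_congr rfl fun T hT => ?_
    rw [hfib T hT, ← smul_eq_mul, ← sum_const]
    refine sum_congr rfl fun x hx => ?_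
    rw [((fstT_iff hR hrk (mem_filter.1 hT).1).1 hx).2]
  have h2 : ∑ x ∈ pvS o q h i, ((ft o F rk x).erase i \ V).card ≤
      ∑ x ∈ pvS o q h i, ((ft o F rk x \ piv o q x).card +
        ((piv o q x).erase i \ V).card) := by
    refine sum_le_sum fun x _ => ?_
    refine le_trans (card_le_card ?_) (card_union_le _ _)
    intro l hl
    rw [mem_sdiff, mem_erase] at hl
    rw [mem_union, mem_sdiff, mem_sdiff, mem_erase]
    by_cases hp : l ∈ piv o q x
    · exact Or.inr ⟨⟨hl.1.1, hp⟩, hl.2⟩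
    · exact Or.inl ⟨hl.1.2, hp⟩
  rw [sum_add_distrib] at h2
  have h3 := a0 hR hrk hh hk i
  have h4 := sig_sum hR hV
  rw [h1, add_mul, one_mul]
  omega

/- PROOF. As (4) in `vis_term` of RK/Vis.lean: suppose every `T ∈ F`, `i ∈ T`, with `M ≤ 2 k |fstT T|` and
`T ∉ badT` has `|T.erase i \ V| > 4 * C`. The terms in `badT` have mass `≤ M / 4`, the at most `k` terms
with `2 k |fstT T| < M` mass `≤ M / 2`; so `∑ |fstT T| |T.erase i \ V| ≥ (M / 4) (4 C + 1) > C M`. -/
theorem avg_term (hR : RefF o q F k L) (hrk : Function.Injective rk)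
    (hM : 0 < (pvS o q h i).card)
    (hbad : 4 * k * L * badM o q F rk s h i ≤ (pvS o q h i).card) {V : Finset (Fin n)} {C : ℕ}
    (hC : ∑ T ∈ F.filter (fun T => i ∈ T), (fstT o q F rk h i T).card * (T.erase i \ V).card ≤
      C * (pvS o q h i).card) :
    ∃ T ∈ F, i ∈ T ∧ (pvS o q h i).card ≤ 2 * k * (fstT o q F rk h i T).card ∧
      2 ^ n ≤ 2 ^ s * (2 ^ T.card * (fstT o q F rk h i T).card) ∧
      (T.erase i \ V).card ≤ 4 * C := by
  classical
  have hsum := sum_fstT hR hrk (h := h) (i := i)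
  obtain ⟨hk, hL⟩ := kL_pos hR hrk hM
  have hkL : 0 < k * L := Nat.mul_pos hk hL
  by_contra hcon
  push Not at hcon
  -- lower bound term by term
  have hD : ∀ T ∈ F.filter (fun T => i ∈ T),
      (4 * C + 1) * (fstT o q F rk h i T).card ≤
        (fstT o q F rk h i T).card * (T.erase i \ V).card +
        ((if T ∈ badT o q F rk s h i then
          (4 * C + 1) * (fstT o q F rk h i T).card else 0) +
        (if 2 * k * (fstT o q F rk h i T).card < (pvS o q h i).card then
          (4 * C + 1) * (fstT o q F rk h i T).card else 0)) := by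
    intro T hT
    rw [mem_filter] at hT
    by_cases hb : T ∈ badT o q F rk s h i
    · rw [if_pos hb]
      omega
    · rw [if_neg hb]
      by_cases hs : 2 * k * (fstT o q F rk h i T).card < (pvS o q h i).card
      · rw [if_pos hs]
        omega
      · rw [if_neg hs]
        have hb' : 2 ^ n ≤ 2 ^ s * (2 ^ T.card * (fstT o q F rk h i T).card) := by
          by_contra hcon'
          exact hb (mem_badT.2 ⟨hT.1, hT.2, hcon'⟩)
        have := hcon T hT.1 hT.2 (not_lt.1 hs) hb'
        rw [add_zero, add_zero, mul_comm]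
        exact Nat.mul_le_mul_left _ this
  have hE := sum_le_sum hD
  rw [← mul_sum, hsum, sum_add_distrib, sum_add_distrib, ← sum_filter, ← sum_filter, ← mul_sum,
    ← mul_sum] at hE
  have h2 : (F.filter (fun T => i ∈ T)).filter (fun T => T ∈ badT o q F rk s h i) =
      badT o q F rk s h i := by
    ext T
    rw [mem_filter, mem_filter]
    constructor
    · exact fun hT => hT.2
    · exact fun hT => ⟨⟨(mem_badT.1 hT).1, (mem_badT.1 hT).2.1⟩, hT⟩
  rw [h2] at hE
  have hbad' : 4 * ∑ T ∈ badT o q F rk s h i, (fstT o q F rk h i T).card ≤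
      (pvS o q h i).card := by
    refine le_trans ?_ hbad
    unfold badM
    calc 4 * ∑ T ∈ badT o q F rk s h i, (fstT o q F rk h i T).card
        ≤ (k * L) * (4 * ∑ T ∈ badT o q F rk s h i, (fstT o q F rk h i T).card) :=
          Nat.le_mul_of_pos_left _ hkL
      _ = _ := by ring
  have hsm : ∀ Sm : Finset (Finset (Fin n)), Sm ⊆ F.filter (fun T => i ∈ T) →
      (∀ T ∈ Sm, 2 * k * (fstT o q F rk h i T).card < (pvS o q h i).card) →
      2 * ∑ T ∈ Sm, (fstT o q F rk h i T).card ≤ (pvS o q h i).card := by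
    intro Sm hS1 hS2
    refine Nat.le_of_mul_le_mul_left ?_ hk
    calc k * (2 * ∑ T ∈ Sm, (fstT o q F rk h i T).card)
        = ∑ T ∈ Sm, 2 * k * (fstT o q F rk h i T).card := by rw [← mul_sum]; ring
      _ ≤ ∑ _T ∈ Sm, (pvS o q h i).card := sum_le_sum fun T hT => (hS2 T hT).le
      _ = Sm.card * (pvS o q h i).card := by rw [sum_const, smul_eq_mul]
      _ ≤ k * (pvS o q h i).card :=
        Nat.mul_le_mul_right _ ((card_le_card hS1).trans (hR.read i))
  exact vis_arith _ C _ _ _ hM hE hC hbad'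
    (hsm _ (filter_subset _ _) fun T hT => (mem_filter.1 hT).2)

/- PROOF. Let `W := F.filter (i ∈ T ∧ T.card < c)`; `∑_W |fstT| * k L > M`. The terms of `W` in `badT` have
mass at most `M / (4 k L)`, so the others have mass `≥ M / (k L) - M / (4 k L) ≥ M / (2 k L)`; there are
at most `k` of them, so one has `|fstT T| ≥ M / (2 k ^ 2 L)`. (`k, L > 0` since `M > 0`.) -/
theorem short_term (hR : RefF o q F k L) (hM : 0 < (pvS o q h i).card) {c : ℕ}
    (hbad : 4 * k * L * badM o q F rk s h i ≤ (pvS o q h i).card)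
    (hS : (pvS o q h i).card <
      k * L * ∑ T ∈ F.filter (fun T => i ∈ T ∧ T.card < c), (fstT o q F rk h i T).card) :
    ∃ T ∈ F, i ∈ T ∧ (pvS o q h i).card ≤ 2 * (k ^ 2 * L) * (fstT o q F rk h i T).card ∧
      2 ^ n ≤ 2 ^ s * (2 ^ T.card * (fstT o q F rk h i T).card) ∧ T.card < c := by
  classical
  have hk : 0 < k := by
    rcases Nat.eq_zero_or_pos k with h0 | h0
    · rw [h0, zero_mul, zero_mul] at hS
      exact absurd hS (Nat.not_lt_zero _)
    · exact h0
  by_contra hcon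
  push Not at hcon
  -- the terms of `badT`
  have h1 : ∑ T ∈ F.filter (fun T => i ∈ T ∧ T.card < c),
      (fstT o q F rk h i T).card =
      ∑ T ∈ (F.filter (fun T => i ∈ T ∧ T.card < c)).filter
        (fun T => T ∈ badT o q F rk s h i), (fstT o q F rk h i T).card +
      ∑ T ∈ (F.filter (fun T => i ∈ T ∧ T.card < c)).filter
        (fun T => ¬ T ∈ badT o q F rk s h i), (fstT o q F rk h i T).card :=
    (sum_filter_add_sum_filter_not _ _ _).symm
  have h2 : ∑ T ∈ (F.filter (fun T => i ∈ T ∧ T.card < c)).filter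
        (fun T => T ∈ badT o q F rk s h i), (fstT o q F rk h i T).card ≤
      badM o q F rk s h i := by
    unfold badM
    refine sum_le_sum_of_subset ?_
    intro T hT
    exact (mem_filter.1 hT).2
  have h3 : ∀ T ∈ (F.filter (fun T => i ∈ T ∧ T.card < c)).filter
        (fun T => ¬ T ∈ badT o q F rk s h i),
      2 * (k ^ 2 * L) * (fstT o q F rk h i T).card ≤ (pvS o q h i).card := by
    intro T hT
    rw [mem_filter, mem_filter] at hT
    by_contra hc
    rw [not_le] at hc
    have hb' : 2 ^ n ≤ 2 ^ s * (2 ^ T.card * (fstT o q F rk h i T).card) := by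
      by_contra hcon'
      exact hT.2 (mem_badT.2 ⟨hT.1.1, hT.1.2.1, hcon'⟩)
    have h4 := hcon T hT.1.1 hT.1.2.1 hc.le hb'
    exact absurd hT.1.2.2 (not_lt.2 h4)
  have h4 : ((F.filter (fun T => i ∈ T ∧ T.card < c)).filter
        (fun T => ¬ T ∈ badT o q F rk s h i)).card ≤ k := by
    refine le_trans (card_le_card ?_) (hR.read i)
    intro T hT
    rw [mem_filter, mem_filter] at hT
    exact mem_filter.2 ⟨hT.1.1, hT.1.2.1⟩
  have h5 : 2 * (k * L) * ∑ T ∈ (F.filter (fun T => i ∈ T ∧ T.card < c)).filter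
        (fun T => ¬ T ∈ badT o q F rk s h i), (fstT o q F rk h i T).card ≤
      (pvS o q h i).card := by
    refine Nat.le_of_mul_le_mul_left ?_ hk
    calc k * (2 * (k * L) * ∑ T ∈ (F.filter (fun T => i ∈ T ∧ T.card < c)).filter
            (fun T => ¬ T ∈ badT o q F rk s h i), (fstT o q F rk h i T).card)
        = ∑ T ∈ (F.filter (fun T => i ∈ T ∧ T.card < c)).filter
            (fun T => ¬ T ∈ badT o q F rk s h i),
            2 * (k ^ 2 * L) * (fstT o q F rk h i T).card := by rw [← mul_sum]; ring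
      _ ≤ ∑ _T ∈ (F.filter (fun T => i ∈ T ∧ T.card < c)).filter
            (fun T => ¬ T ∈ badT o q F rk s h i), (pvS o q h i).card := sum_le_sum h3
      _ = ((F.filter (fun T => i ∈ T ∧ T.card < c)).filter
            (fun T => ¬ T ∈ badT o q F rk s h i)).card * (pvS o q h i).card := by
          rw [sum_const, smul_eq_mul]
      _ ≤ k * (pvS o q h i).card := Nat.mul_le_mul_right _ h4
  have h6 := Nat.mul_le_mul_left (4 * k * L) h2
  rw [h1] at hS
  exact short_arith _ _ _ _ _ hS (h6.trans hbad) h5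

/- PROOF. `orP i j` is covered by its points with `Far`, with `¬ Far ∧ ¬ Shr` and with `¬ Far ∧ Shr`, so
`∑_{j ∈ nbr i} |orP i j| ≤ Λ0 M + orN (¬ Far ∧ Shr)`. If the mass of the short terms times `k L` is
at most `M` then `short_or` and `vis_sum` give `hC` of `avg_term` with `C := κ + Λ0 + 2`. Otherwise
`short_term` with `c := l + r`; `|T.erase i \ V| ≤ |T| ≤ Λ`. Note `2 k e ≤ 2 (k ^ 2 L) e`. -/
theorem vis_term2 (hR : RefF o q F k L) (hrk : Function.Injective rk) (hh : OrL o h)
    (hk : k ≤ 2 ^ κ) (hM : 0 < (pvS o q h i).card)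
    (hbad : 4 * k * L * badM o q F rk s h i ≤ (pvS o q h i).card)
    (hor : orN o q h (fun x => ¬ Far o F r x ∧ ¬ Shr o F l x) univ i +
      orN o q h (Far o F r) (nbr F i) i ≤ Λ0 * (pvS o q h i).card)
    (hΛ : 4 * (κ + Λ0 + 2) ≤ Λ) (hΛ' : l + r ≤ Λ) {V : Finset (Fin n)}
    (hV : ∀ j, j ≠ i → j ∉ V → k * L * (cU o q h i j).card ≤
      k * L * (cD o q h i j).card + (pvS o q h i).card) :
    ∃ T ∈ F, i ∈ T ∧ (pvS o q h i).card ≤ 2 * (k ^ 2 * L) * (fstT o q F rk h i T).card ∧
      2 ^ n ≤ 2 ^ s * (2 ^ T.card * (fstT o q F rk h i T).card) ∧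
      (T.erase i \ V).card ≤ Λ := by
  classical
  obtain ⟨hk0, hL0⟩ := kL_pos hR hrk hM
  by_cases hS : (pvS o q h i).card < k * L *
      ∑ T ∈ F.filter (fun T => i ∈ T ∧ T.card < l + r), (fstT o q F rk h i T).card
  · obtain ⟨T, hT, hi, h1, h2, h3⟩ := short_term hR hM hbad hS
    refine ⟨T, hT, hi, h1, h2, ?_⟩
    have h4 : (T.erase i \ V).card ≤ T.card :=
      card_le_card (sdiff_subset.trans (erase_subset _ _))
    omega
  · rw [not_lt] at hS
    have h1 := short_or (r := r) (l := l) (o := o) (q := q) (F := F) hR hrk hh i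
    have h2 := vis_sum hR hrk hh hk hV
    have h3 := or_split (o := o) (q := q) (F := F) (h := h) (i := i) (r := r) (l := l)
    have hC : ∑ T ∈ F.filter (fun T => i ∈ T),
        (fstT o q F rk h i T).card * (T.erase i \ V).card ≤
        (κ + Λ0 + 2) * (pvS o q h i).card := by
      have h4 : (κ + Λ0 + 2) * (pvS o q h i).card = (κ + 1) * (pvS o q h i).card +
          Λ0 * (pvS o q h i).card + (pvS o q h i).card := by ring
      rw [h4]
      have h5 := h1.trans hS
      omega
    obtain ⟨T, hT, hi, h4, h5, h6⟩ := avg_term hR hrk hM hbad hC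
    refine ⟨T, hT, hi, h4.trans ?_, h5, h6.trans hΛ⟩
    refine Nat.mul_le_mul_right _ (Nat.mul_le_mul_left _ ?_)
    calc k = k * 1 := (mul_one k).symm
      _ ≤ k * (k * L) := Nat.mul_le_mul_left _ (Nat.mul_pos hk0 hL0)
      _ = k ^ 2 * L := by ring

end Pool.Agent.H.MP_cba12a_lc.RL
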