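import Pool.Agent.H.MP_cba12a_lc.RL.Step
import Pool.Agent.H.MP_cba12a_lc.RL.VisT
import Pool.Agent.H.MP_cba12a_lc.RL.NearOr
import Pool.Agent.H.MP_cba12a_lc.RL.FarOr
import Pool.Agent.H.MP_cba12a_lc.RK.VisA
import Pool.Agent.H.MP_cba12a_lc.RK.Core
import Pool.Agent.H.MP_cba12a_lc.RK.Rates

/-!
The isoperimetric inequality at the end of the algorithm, and the error of the hypothesis.
-/

namespace Pool.Agent.H.MP_cba12a_lc.RL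

open Finset Pool.Agent.H.MP_cba12a_lc Pool.Agent.H.MP_cba12a_lc.RK

variable {n m : ℕ} {o : Fin n → Bool} {f q : (Fin n → Bool) → Bool} {ω : Fin m → Fin n → Bool}
  {R : ℕ} {τ : ℝ} {V : List Lit}

/-- if no candidate passes then the sum of the masses of the pivotal points is small -/
theorem iso_final2 {F : Finset (Finset (Fin n))} {rk : Finset (Fin n) → ℕ}
    {k L K κ Λ s c N A0 B Θ a : ℕ} {ρ : ℝ} {H : List (List Lit)}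
    (hS : Smp o f q ω R τ V) (hR : RefF o q F k L) (hrk : Function.Injective rk)
    (hFV : ∀ T ∈ F, ∀ j ∈ T, ((j : ℕ), o j) ∈ V)
    (hr : H.length ≤ R) (hh : ∀ D ∈ H, ∀ l ∈ D, l ∈ V) (hKe : K = k ^ 2 * L)
    (hc : (27 / 64 : ℝ) ^ c * (2 * K) < 1) (hK : k ≤ K) (hκ : k ≤ 2 ^ κ)
    (hΛ : 3 * s + 68 * κ + 12 ≤ Λ)
    (hΘ : A0 * Λ * 2 ^ (2 * Λ + s + 4) ≤ Θ)
    (hN1 : (2 * k * L ^ 2 + 1) ^ (3 * c) ≤ N) (hN3 : (4 * Θ ^ 2 + 1) ^ (3 * c) ≤ N)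
    (hN2 : (1 / ρ) ^ 10 ≤ (N : ℝ)) (hA0 : 1 ≤ A0)
    (hτ1 : 256 * τ ≤ ρ) (hτ2 : (32 * L + 12) * τ ≤ ρ) (hτ3 : (8 * Θ + 4) * τ ≤ ρ)
    (hτ4 : 4 * (A0 + 1) * τ ≤ ρ) (hB : 1 ≤ ρ / 2 * B)
    (hgood : goodR A0 B N (3 * c) Θ (4 * k * L) V (smp f ω) H = []) (ha : 1 ≤ a)
    (hneg : 1 / (4 * a) ≤ mu (ev q false [] [])) :
    2 * mu (ev q true [] H) * mu (ev q false [] H) ≤
      n * (4 * K * ρ) + 32 * a * (k : ℝ) ^ 2 * (L : ℝ) ^ 3 * (1 / 2 : ℝ) ^ s +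
        16 * a * (k : ℝ) ^ 3 * (L : ℝ) ^ 3 * (1 / 2 : ℝ) ^ s := by
  have hτ := hS.hτ
  have hρ0 : 0 < ρ := by linarith
  have hp : (0 : ℝ) < 2 ^ n := by positivity
  have ha' : (1 : ℝ) ≤ a := by exact_mod_cast ha
  have hhO : OrL o H := fun D hD l hl => hS.lits l (hh D hD l hl)
  have hkρ : 0 ≤ 2 * (K : ℝ) * ρ := by positivity
  obtain ⟨l, hl⟩ : ∃ l : ℕ, l = 2 * s + 4 * κ := ⟨_, rfl⟩
  obtain ⟨G, hG⟩ : ∃ G : Fin n → ℕ, G = fun i =>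
    orN o q H (fun x => ¬ Far o F s x ∧ ¬ Shr o F l x) univ i +
      orN o q H (Far o F s) (nbr F i) i := ⟨_, rfl⟩
  have hi : ∀ i, mu (pv q H i (o i) []) ≤
      2 * K * ρ + 4 * k * L * (((badM o q F rk s H i : ℕ) : ℝ) / 2 ^ n) +
        ((G i : ℕ) : ℝ) / 2 ^ n / (16 * κ + 1) := by
    intro i
    by_contra hcon
    rw [not_le] at hcon
    have h0 : (0 : ℝ) ≤ 4 * k * L * (((badM o q F rk s H i : ℕ) : ℝ) / 2 ^ n) := by positivity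
    have h0' : (0 : ℝ) ≤ ((G i : ℕ) : ℝ) / 2 ^ n / (16 * κ + 1) := by positivity
    have hM : 0 < mu (pv q H i (o i) []) := by linarith
    have hMS : 0 < (pvS o q H i).card := by
      rw [mu_pv_eq] at hM
      by_contra hcon'
      have h0 : (pvS o q H i).card = 0 := by omega
      rw [h0] at hM
      simp at hM
    refine step_gen hS hR hrk hFV hr hh hc hK (by omega) hΘ hN1 hN3 hN2 hA0 hτ1 hτ2 hτ3 hτ4 hB
      (i := i) ?_ hM ?_ hgood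
    · linarith
    · intro W hW
      rw [mu_pv_eq] at hcon
      rw [hKe]
      refine vis_term2 (κ := κ) (r := s) (l := l) (Λ0 := 16 * κ + 1) hR hrk hhO hκ hMS ?_ ?_
        (by omega) (by omega) hW
      · have h1 : 4 * k * L * (((badM o q F rk s H i : ℕ) : ℝ) / 2 ^ n) <
            ((pvS o q H i).card : ℝ) / 2 ^ n := by linarith
        rw [← mul_div_assoc, div_lt_div_iff_of_pos_right hp] at h1
        exact_mod_cast h1.le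
      · have h1 : ((G i : ℕ) : ℝ) / 2 ^ n / (16 * κ + 1) <
            ((pvS o q H i).card : ℝ) / 2 ^ n := by linarith
        rw [div_right_comm, div_lt_div_iff_of_pos_right hp, div_lt_iff₀ (by positivity)] at h1
        have h2 : (G i : ℝ) ≤ ((16 * κ + 1 : ℕ) : ℝ) * ((pvS o q H i).card : ℝ) := by
          push_cast
          linarith
        have h3 : G i ≤ (16 * κ + 1) * (pvS o q H i).card := by exact_mod_cast h2
        rw [hG] at h3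
        exact h3
  have h1 := iso_pv hR.up (h := H) fun D hD l hl => hS.lits l (hh D hD l hl)
  obtain ⟨E, hE⟩ : ∃ E : ℝ, E = ∑ i, mu (pv q H i (o i) []) := ⟨_, rfl⟩
  have hE' : E = ((∑ i, (pvS o q H i).card : ℕ) : ℝ) / 2 ^ n := by
    rw [hE]
    push_cast
    rw [sum_div]
    exact sum_congr rfl fun i _ => mu_pv_eq
  have h2 : E ≤ n * (2 * K * ρ) + 4 * k * L * ∑ i, ((badM o q F rk s H i : ℕ) : ℝ) / 2 ^ n +
      (∑ i, ((G i : ℕ) : ℝ) / 2 ^ n) / (16 * κ + 1) := by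
    rw [hE]
    refine (sum_le_sum fun i _ => hi i).trans (le_of_eq ?_)
    rw [sum_add_distrib, sum_add_distrib, sum_const, card_univ, Fintype.card_fin, nsmul_eq_mul,
      mul_sum, sum_div]
  have h3 : ∑ i, ((badM o q F rk s H i : ℕ) : ℝ) / 2 ^ n ≤
      L * (1 / 2 : ℝ) ^ s * ∑ T ∈ F, (1 / 2 : ℝ) ^ T.card := bad_total hR
  have h4 := rates hR
  have h5 : pr (fun x => q x = false) = mu (ev q false [] []) := by
    rw [mu_eq_pr]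
    refine pr_congr fun x => ?_
    rw [ev_iff]
    constructor
    · exact fun h => ⟨h, rfl, rfl⟩
    · exact fun h => h.1
  rw [h5] at h4
  have h6 : 0 ≤ ∑ T ∈ F, (1 / 2 : ℝ) ^ T.card := sum_nonneg fun T _ => by positivity
  have h7 : (∑ T ∈ F, (1 / 2 : ℝ) ^ T.card) * (1 / (4 * a)) ≤ k * L :=
    (mul_le_mul_of_nonneg_left hneg h6).trans h4
  have h8 : (∑ T ∈ F, (1 / 2 : ℝ) ^ T.card) ≤ k * L * (4 * a) := by
    rw [mul_one_div, div_le_iff₀ (by positivity)] at h7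
    exact h7
  have h10 : 4 * (k : ℝ) * L * ∑ i, ((badM o q F rk s H i : ℕ) : ℝ) / 2 ^ n ≤
      16 * a * (k : ℝ) ^ 2 * (L : ℝ) ^ 3 * (1 / 2 : ℝ) ^ s := by
    calc 4 * (k : ℝ) * L * ∑ i, ((badM o q F rk s H i : ℕ) : ℝ) / 2 ^ n
        ≤ 4 * k * L * (L * (1 / 2 : ℝ) ^ s * ∑ T ∈ F, (1 / 2 : ℝ) ^ T.card) :=
          mul_le_mul_of_nonneg_left h3 (by positivity)
      _ ≤ 4 * k * L * (L * (1 / 2 : ℝ) ^ s * (k * L * (4 * a))) :=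
          mul_le_mul_of_nonneg_left (mul_le_mul_of_nonneg_left h8 (by positivity)) (by positivity)
      _ = _ := by ring
  -- the pairs
  have hnear : ∑ i, orN o q H (fun x => ¬ Far o F s x ∧ ¬ Shr o F l x) univ i ≤
      8 * κ * ∑ i, (pvS o q H i).card := near_or (rk := rk) hR hrk hhO hκ (by omega) (by omega)
  have hfar := far_or (r := s) (h := H) hR
  have h11 : ∑ i, ((G i : ℕ) : ℝ) / 2 ^ n ≤ 8 * κ * E +
      8 * a * (k : ℝ) ^ 3 * (L : ℝ) ^ 3 * (1 / 2 : ℝ) ^ s := by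
    have e1 : ∑ i, ((G i : ℕ) : ℝ) / 2 ^ n =
        ((∑ i, orN o q H (fun x => ¬ Far o F s x ∧ ¬ Shr o F l x) univ i : ℕ) : ℝ) / 2 ^ n +
          ∑ i, (orN o q H (Far o F s) (nbr F i) i : ℝ) / 2 ^ n := by
      rw [hG]
      push_cast
      rw [sum_div, ← sum_add_distrib]
      exact sum_congr rfl fun i _ => add_div _ _ _
    have e2 : ((∑ i, orN o q H (fun x => ¬ Far o F s x ∧ ¬ Shr o F l x) univ i : ℕ) : ℝ) / 2 ^ n ≤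
        8 * κ * E := by
      rw [hE', ← mul_div_assoc, div_le_div_iff_of_pos_right hp]
      exact_mod_cast hnear
    have e3 : 4 * (k : ℝ) ^ 2 * (L : ℝ) ^ 2 * (1 / 2 : ℝ) ^ (s + 1) *
        ∑ T ∈ F, (1 / 2 : ℝ) ^ T.card ≤ 8 * a * (k : ℝ) ^ 3 * (L : ℝ) ^ 3 * (1 / 2 : ℝ) ^ s := by
      calc 4 * (k : ℝ) ^ 2 * (L : ℝ) ^ 2 * (1 / 2 : ℝ) ^ (s + 1) * ∑ T ∈ F, (1 / 2 : ℝ) ^ T.card
          ≤ 4 * (k : ℝ) ^ 2 * (L : ℝ) ^ 2 * (1 / 2 : ℝ) ^ (s + 1) * (k * L * (4 * a)) :=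
            mul_le_mul_of_nonneg_left h8 (by positivity)
        _ = _ := by rw [pow_succ]; ring
    rw [e1]
    linarith
  have hE0 : 0 ≤ E := by rw [hE']; positivity
  have h12 : (∑ i, ((G i : ℕ) : ℝ) / 2 ^ n) / (16 * κ + 1) ≤ 1 / 2 * E +
      8 * a * (k : ℝ) ^ 3 * (L : ℝ) ^ 3 * (1 / 2 : ℝ) ^ s := by
    rw [div_le_iff₀ (by positivity)]
    refine h11.trans ?_
    have e1 : (0 : ℝ) ≤ 8 * a * (k : ℝ) ^ 3 * (L : ℝ) ^ 3 * (1 / 2 : ℝ) ^ s := by positivity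
    have e2 : (0 : ℝ) ≤ (κ : ℝ) := by positivity
    nlinarith [mul_nonneg e1 e2, mul_nonneg hE0 e2]
  rw [← hE] at h1
  linarith

/-- the error of the hypothesis -/
theorem core_error2 {F : Finset (Finset (Fin n))}
    {k L K κ Λ s c N A0 B Θ a : ℕ} {ρ : ℝ}
    (hS : Smp o f q ω R τ V) (hR : RefF o q F k L)
    (hFV : ∀ T ∈ F, ∀ j ∈ T, ((j : ℕ), o j) ∈ V) (hKe : K = k ^ 2 * L)
    (hc : (27 / 64 : ℝ) ^ c * (2 * K) < 1) (hK : k ≤ K) (hκ : k ≤ 2 ^ κ)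
    (hΛ : 3 * s + 68 * κ + 12 ≤ Λ)
    (hΘ : A0 * Λ * 2 ^ (2 * Λ + s + 4) ≤ Θ)
    (hN1 : (2 * k * L ^ 2 + 1) ^ (3 * c) ≤ N) (hN3 : (4 * Θ ^ 2 + 1) ^ (3 * c) ≤ N)
    (hN2 : (1 / ρ) ^ 10 ≤ (N : ℝ)) (hA0 : 1 ≤ A0)
    (hτ1 : 256 * τ ≤ ρ) (hτ2 : (32 * L + 12) * τ ≤ ρ) (hτ3 : (8 * Θ + 4) * τ ≤ ρ)
    (hτ4 : 4 * (A0 + 1) * τ ≤ ρ) (hB0 : 0 < B) (hB : 1 ≤ ρ / 2 * B)
    (hRB : 1 < R * (1 / (B : ℝ) - τ)) (ha : 1 ≤ a) (hτa : 32 * a * τ ≤ 1)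
    (hFP : 1 / (A0 : ℝ) + R * (2 * τ) ≤ 1 / (16 * a))
    (hfin : n * (4 * K * ρ) + 32 * a * (k : ℝ) ^ 2 * (L : ℝ) ^ 3 * (1 / 2 : ℝ) ^ s +
        16 * a * (k : ℝ) ^ 3 * (L : ℝ) ^ 3 * (1 / 2 : ℝ) ^ s ≤ 1 / (8 * a ^ 2)) :
    mu (errE f (fin4 a (smp f ω) (coreR A0 B R N (3 * c) Θ (4 * k * L) V (smp f ω)))) ≤
      1 / a := by
  obtain ⟨H, hH, hlen, hlit, hfp, hgood⟩ := coreR_spec (A := A0) (B := B) (R := R) (N := N)
    (a := 3 * c) (Θ := Θ) (κ := 4 * k * L) hS.hm (by omega) hB0 hS.hτ hS.rep hRB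
    (V := V) (fun l hl => by
      obtain ⟨i, rfl⟩ := hS.lits l hl
      exact i.2)
  rw [hH]
  refine fin_error hS.hm ha hS.hτ hτa hS.rep hS.dist (hfp.trans hFP) fun hneg => ?_
  exact (iso_final2 (rk := fun T => (Fintype.equivFin _ T : ℕ)) hS hR
    (fun T T' h => (Fintype.equivFin _).injective (Fin.ext h)) hFV hlen hlit hKe hc hK hκ hΛ hΘ
    hN1 hN3 hN2 hA0 hτ1 hτ2 hτ3 hτ4 hB hgood ha hneg).trans hfin

end Pool.Agent.H.MP_cba12a_lc.RL
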