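import Pool.Agent.H.MP_cba12a_lc.RL.Ent

/-!
An edge isoperimetric inequality for labelled families of sets.
-/

namespace Pool.Agent.H.MP_cba12a_lc.RL

open Finset

private theorem Iso_inj {α : Type} [DecidableEq α] (l : α) {A : Finset (Finset α)}
    (hA : ∀ w ∈ A, l ∈ w) : Set.InjOn (fun w : Finset α => w.erase l) (A : Set (Finset α)) := by
  intro w hw y hy h
  have h1 : w.erase l = y.erase l := h
  calc w = insert l (w.erase l) := (insert_erase (hA w hw)).symm
    _ = insert l (y.erase l) := by rw [h1]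
    _ = y := insert_erase (hA y hy)

private theorem Iso_phi {k : ℕ} (hk : k ≤ 1) : phi (k : ℝ) = 0 := by
  interval_cases k <;> simp [phi]

/- PROOF. Induction on `U` (`Finset.induction_on`), for all `𝒱, Z, T`.
`U = ∅`: all `w ∈ 𝒱` and their `T (Z w)` are empty; the left side is `0`, `𝒱.card ≤ 1`, and at most
one fibre is not empty, so the right side is `0` (`phi 0 = phi 1 = 0`).
`U = insert l U'`: `𝒱0 := 𝒱.filter (l ∉ ·)` with the same `Z, T`;
`𝒱1 := (𝒱.filter (l ∈ ·)).image (·.erase l)` with `Z1 w' := Z (insert l w')`,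
`T1 a := (T a).erase l`. All hypotheses are inherited (note `(w.erase m).erase l = (w.erase l).erase m`,
`insert l (w.erase l) = w` for `l ∈ w`, `(insert l w').erase l = w'` for `l ∉ w'`).
Edges: for `w ∈ 𝒱0`, `w.erase m ∈ 𝒱 ↔ w.erase m ∈ 𝒱0`. For `w ∈ 𝒱`, `l ∈ w`, `w' := w.erase l`: for
`m ≠ l`, `w.erase m ∈ 𝒱 ↔ w'.erase m ∈ 𝒱1`; and `m = l` counts iff `l ∈ T (Z w)` and `w' ∈ 𝒱0`. So
`edges 𝒱 = edges 𝒱0 + edges 𝒱1 + x`, `x := #{w ∈ 𝒱 | l ∈ w, l ∈ T (Z w), w.erase l ∈ 𝒱}`.
Let `Q := 𝒦.filter (l ∉ T ·)`, `v a := #{w ∈ 𝒱0 | Z w = a}`, `w a := #{w' ∈ 𝒱1 | Z1 w' = a}`;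
`#{w ∈ 𝒱 | Z w = a} = v a + w a`. `v a = 0` for `a ∉ Q` (as `T (Z w) ⊆ w ∌ l`), so `∑_Q v = |𝒱0|`.
The `w' ∈ 𝒱1` with label in `Q` lie in `𝒱0` by (P), and so do those counted by `x`, so
`∑_Q w + x ≤ |𝒱0|`, `∑_Q w + x ≤ |𝒱1|`. `ent_step`: `x log 2 + ∑_Q h2 (v a) (w a) ≤ h2 |𝒱0| |𝒱1|`;
`h2 (v a) (w a) = 0` for `a ∉ Q`. Now unfold `h2` and add the induction hypotheses. -/
theorem iso_gen {α K : Type} [DecidableEq α] [DecidableEq K] (𝒦 : Finset K) (U : Finset α) :
    ∀ (𝒱 : Finset (Finset α)) (Z : Finset α → K) (T : K → Finset α), (∀ w ∈ 𝒱, w ⊆ U) →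
    (∀ w ∈ 𝒱, Z w ∈ 𝒦) → (∀ w ∈ 𝒱, T (Z w) ⊆ w) →
    (∀ w ∈ 𝒱, ∀ l ∈ w, l ∉ T (Z w) → w.erase l ∈ 𝒱) →
    ((∑ w ∈ 𝒱, ((T (Z w)).filter fun l => w.erase l ∈ 𝒱).card : ℕ) : ℝ) * Real.log 2 ≤
      phi (𝒱.card : ℝ) - ∑ a ∈ 𝒦, phi (((𝒱.filter fun w => Z w = a).card : ℕ) : ℝ) := by
  induction U using Finset.induction_on with
  | empty =>
    intro 𝒱 Z T hU hZ hT hP
    have hsub : 𝒱 ⊆ {∅} := fun w hw => mem_singleton.2 (subset_empty.1 (hU w hw))
    have hE : (∑ w ∈ 𝒱, ((T (Z w)).filter fun l => w.erase l ∈ 𝒱).card) = 0 := by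
      refine sum_eq_zero fun w hw => ?_
      have h1 : T (Z w) = ∅ := subset_empty.1 ((hT w hw).trans (hU w hw))
      rw [h1, filter_empty, card_empty]
    have hc : 𝒱.card ≤ 1 := (card_le_card hsub).trans (card_singleton _).le
    have hs : ∑ a ∈ 𝒦, phi (((𝒱.filter fun w => Z w = a).card : ℕ) : ℝ) = 0 :=
      sum_eq_zero fun a _ => Iso_phi ((card_filter_le _ _).trans hc)
    rw [hE, hs, Iso_phi hc]
    simp
  | insert l U' hl ih =>
    intro 𝒱 Z T hU hZ hT hP
    obtain ⟨A, hA⟩ : ∃ A, A = 𝒱.filter (fun w => l ∈ w) := ⟨_, rfl⟩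
    obtain ⟨V0, hV0⟩ : ∃ V0, V0 = 𝒱.filter (fun w => l ∉ w) := ⟨_, rfl⟩
    obtain ⟨V1, hV1⟩ : ∃ V1, V1 = A.image (fun w => w.erase l) := ⟨_, rfl⟩
    have hmA : ∀ w, w ∈ A ↔ w ∈ 𝒱 ∧ l ∈ w := fun w => by rw [hA, mem_filter]
    have hm0 : ∀ w, w ∈ V0 ↔ w ∈ 𝒱 ∧ l ∉ w := fun w => by rw [hV0, mem_filter]
    have hm1 : ∀ y, y ∈ V1 ↔ ∃ w ∈ A, w.erase l = y := fun y => by rw [hV1, mem_image]
    have hinj : Set.InjOn (fun w : Finset α => w.erase l) (A : Set (Finset α)) :=
      Iso_inj l fun w hw => ((hmA w).1 hw).2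
    have hU' : ∀ w ∈ 𝒱, w.erase l ⊆ U' := fun w hw => by
      rw [← subset_insert_iff]
      exact hU w hw
    have hins : ∀ w ∈ A, insert l (w.erase l) = w := fun w hw => insert_erase ((hmA w).1 hw).2
    -- the two halves
    have ih0 := ih V0 Z T
      (fun w hw => by
        have h1 := hU' w ((hm0 w).1 hw).1
        rwa [erase_eq_of_notMem ((hm0 w).1 hw).2] at h1)
      (fun w hw => hZ w ((hm0 w).1 hw).1) (fun w hw => hT w ((hm0 w).1 hw).1)
      (fun w hw m hm hmT => (hm0 _).2 ⟨hP w ((hm0 w).1 hw).1 m hm hmT,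
        fun h => ((hm0 w).1 hw).2 (mem_of_mem_erase h)⟩)
    have ih1 := ih V1 (fun y => Z (insert l y)) (fun a => (T a).erase l)
      (fun y hy => by
        obtain ⟨w, hw, rfl⟩ := (hm1 y).1 hy
        exact hU' w ((hmA w).1 hw).1)
      (fun y hy => by
        obtain ⟨w, hw, rfl⟩ := (hm1 y).1 hy
        rw [hins w hw]
        exact hZ w ((hmA w).1 hw).1)
      (fun y hy => by
        obtain ⟨w, hw, rfl⟩ := (hm1 y).1 hy
        rw [hins w hw]
        exact erase_subset_erase l (hT w ((hmA w).1 hw).1))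
      (fun y hy m hm hmT => by
        obtain ⟨w, hw, rfl⟩ := (hm1 y).1 hy
        rw [hins w hw] at hmT
        have hml := ne_of_mem_erase hm
        have h1 : m ∉ T (Z w) := fun h => hmT (mem_erase.2 ⟨hml, h⟩)
        refine (hm1 _).2 ⟨w.erase m, (hmA _).2 ⟨hP w ((hmA w).1 hw).1 m (mem_of_mem_erase hm) h1,
          mem_erase.2 ⟨hml.symm, ((hmA w).1 hw).2⟩⟩, ?_⟩
        exact erase_right_comm)
    -- the number of edges in the direction `l`
    obtain ⟨X, hX⟩ : ∃ X, X = A.filter (fun w => l ∈ T (Z w) ∧ w.erase l ∈ 𝒱) := ⟨_, rfl⟩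
    have hE0 : ∑ w ∈ V0, ((T (Z w)).filter fun m => w.erase m ∈ V0).card =
        ∑ w ∈ V0, ((T (Z w)).filter fun m => w.erase m ∈ 𝒱).card := by
      refine sum_congr rfl fun w hw => ?_
      congr 1
      refine filter_congr fun m _ => ?_
      rw [hm0]
      exact ⟨fun h => h.1, fun h => ⟨h, fun h' => ((hm0 w).1 hw).2 (mem_of_mem_erase h')⟩⟩
    have hE1 : ∑ y ∈ V1, ((((fun a => (T a).erase l) ((fun y => Z (insert l y)) y))).filter
        fun m => y.erase m ∈ V1).card + X.card =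
        ∑ w ∈ A, ((T (Z w)).filter fun m => w.erase m ∈ 𝒱).card := by
      rw [hV1, sum_image hinj, ← hV1, hX, card_filter, ← sum_add_distrib]
      refine sum_congr rfl fun w hw => ?_
      obtain ⟨hw1, hw2⟩ := (hmA w).1 hw
      have h1 : (((fun a => (T a).erase l) ((fun y => Z (insert l y)) (w.erase l)))).filter
          (fun m => (w.erase l).erase m ∈ V1) =
          ((T (Z w)).filter fun m => w.erase m ∈ 𝒱).erase l := by
        ext m
        simp only [mem_filter, mem_erase, hins w hw]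
        constructor
        · rintro ⟨⟨hml, hmT⟩, hm⟩
          obtain ⟨y, hy, hy'⟩ := (hm1 _).1 hm
          refine ⟨hml, hmT, ?_⟩
          have h2 : y = w.erase m := by
            rw [← hins y hy, hy', erase_right_comm]
            exact insert_erase (mem_erase.2 ⟨fun h => hml h.symm, hw2⟩)
          rw [← h2]
          exact ((hmA y).1 hy).1
        · rintro ⟨hml, hmT, hm⟩
          refine ⟨⟨hml, hmT⟩, (hm1 _).2 ⟨w.erase m, (hmA _).2 ⟨hm,
            mem_erase.2 ⟨fun h => hml h.symm, hw2⟩⟩, erase_right_comm⟩⟩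
      rw [h1]
      by_cases hc : l ∈ T (Z w) ∧ w.erase l ∈ 𝒱
      · rw [if_pos hc]
        exact card_erase_add_one (mem_filter.2 hc)
      · rw [if_neg hc, add_zero, erase_eq_of_notMem fun h => hc (mem_filter.1 h)]
    have hE : ∑ w ∈ 𝒱, ((T (Z w)).filter fun m => w.erase m ∈ 𝒱).card =
        ∑ w ∈ A, ((T (Z w)).filter fun m => w.erase m ∈ 𝒱).card +
        ∑ w ∈ V0, ((T (Z w)).filter fun m => w.erase m ∈ 𝒱).card := by
      rw [hA, hV0]
      exact (sum_filter_add_sum_filter_not 𝒱 (fun w => l ∈ w) _).symm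
    -- the masses
    have hcard1 : V1.card = A.card := by
      rw [hV1]
      exact card_image_of_injOn hinj
    have hcard : 𝒱.card = V0.card + V1.card := by
      rw [hcard1, hA, hV0, add_comm]
      exact (card_filter_add_card_filter_not (s := 𝒱) (fun w => l ∈ w)).symm
    have hu : ∀ a, (V1.filter fun y => (fun y => Z (insert l y)) y = a).card =
        (A.filter fun w => Z w = a).card := by
      intro a
      have h1 : V1.filter (fun y => (fun y => Z (insert l y)) y = a) =
          (A.filter fun w => Z w = a).image fun w => w.erase l := by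
        ext y
        rw [mem_filter, mem_image]
        constructor
        · rintro ⟨hy, hya⟩
          obtain ⟨w, hw, rfl⟩ := (hm1 y).1 hy
          refine ⟨w, mem_filter.2 ⟨hw, ?_⟩, rfl⟩
          simp only [hins w hw] at hya
          exact hya
        · rintro ⟨w, hw, rfl⟩
          rw [mem_filter] at hw
          refine ⟨(hm1 _).2 ⟨w, hw.1, rfl⟩, ?_⟩
          simp only [hins w hw.1]
          exact hw.2
      rw [h1]
      exact card_image_of_injOn (hinj.mono fun w hw => (mem_filter.1 hw).1)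
    have hfib : ∀ a, (𝒱.filter fun w => Z w = a).card =
        (V0.filter fun w => Z w = a).card + (A.filter fun w => Z w = a).card := by
      intro a
      rw [hV0, hA, filter_filter, filter_filter,
        ← card_filter_add_card_filter_not (s := 𝒱.filter fun w => Z w = a) (fun w => l ∈ w),
        filter_filter, filter_filter, add_comm]
      congr 2 <;> exact filter_congr fun w _ => and_comm
    obtain ⟨Q, hQ⟩ : ∃ Q, Q = 𝒦.filter (fun a => l ∉ T a) := ⟨_, rfl⟩
    have hmQ : ∀ a, a ∈ Q ↔ a ∈ 𝒦 ∧ l ∉ T a := fun a => by rw [hQ, mem_filter]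
    obtain ⟨Y, hY⟩ : ∃ Y, Y = A.filter (fun w => l ∉ T (Z w)) := ⟨_, rfl⟩
    have hsv : ∑ a ∈ Q, (V0.filter fun w => Z w = a).card = V0.card := by
      refine (card_eq_sum_card_fiberwise fun w hw => ?_).symm
      have hw' := (hm0 w).1 hw
      exact (hmQ _).2 ⟨hZ w hw'.1, fun h => hw'.2 (hT w hw'.1 h)⟩
    have hsu : ∑ a ∈ Q, (A.filter fun w => Z w = a).card = Y.card := by
      have h1 : ∀ a ∈ Q, (A.filter fun w => Z w = a) = Y.filter fun w => Z w = a := by
        intro a ha
        rw [hY, filter_filter]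
        refine filter_congr fun w _ => ?_
        constructor
        · rintro rfl
          exact ⟨((hmQ _).1 ha).2, rfl⟩
        · exact fun h => h.2
      rw [sum_congr rfl fun a ha => by rw [h1 a ha]]
      refine (card_eq_sum_card_fiberwise fun w hw => ?_).symm
      have hw' : w ∈ A ∧ l ∉ T (Z w) := by
        have : w ∈ Y := hw
        rwa [hY, mem_filter] at this
      exact (hmQ _).2 ⟨hZ w ((hmA w).1 hw'.1).1, hw'.2⟩
    have hdis : Disjoint Y X := by
      rw [disjoint_left]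
      intro w hw hw'
      rw [hY, mem_filter] at hw
      rw [hX, mem_filter] at hw'
      exact hw.2 hw'.2.1
    have hYX1 : Y.card + X.card ≤ V1.card := by
      rw [hcard1, ← card_union_of_disjoint hdis]
      refine card_le_card (union_subset ?_ ?_)
      · rw [hY]
        exact filter_subset _ _
      · rw [hX]
        exact filter_subset _ _
    have hYX0 : Y.card + X.card ≤ V0.card := by
      have hsub : Y ∪ X ⊆ A := by
        refine union_subset ?_ ?_
        · rw [hY]
          exact filter_subset _ _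
        · rw [hX]
          exact filter_subset _ _
      rw [← card_union_of_disjoint hdis,
        ← card_image_of_injOn (hinj.mono fun w hw => hsub hw)]
      refine card_le_card fun y hy => ?_
      obtain ⟨w, hw, rfl⟩ := mem_image.1 hy
      refine (hm0 _).2 ⟨?_, notMem_erase l w⟩
      rcases mem_union.1 hw with h | h
      · rw [hY, mem_filter] at h
        have h1 := (hmA w).1 h.1
        exact hP w h1.1 l h1.2 h.2
      · rw [hX, mem_filter] at h
        exact h.2.2
    -- the entropy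
    have hent := ent_step Q (fun a => (((V0.filter fun w => Z w = a).card : ℕ) : ℝ))
      (fun a => (((A.filter fun w => Z w = a).card : ℕ) : ℝ)) (fun a _ => Nat.cast_nonneg _)
      (fun a _ => Nat.cast_nonneg _) (V0 := (V0.card : ℝ)) (V1 := (V1.card : ℝ)) (x := (X.card : ℝ))
      (by rw [← hsv]; push_cast; rfl) (Nat.cast_nonneg _)
      (by
        have : ∑ a ∈ Q, (((A.filter fun w => Z w = a).card : ℕ) : ℝ) = (Y.card : ℝ) := by
          rw [← hsu]
          push_cast
          rfl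
        rw [this]
        exact_mod_cast hYX0)
      (by
        have : ∑ a ∈ Q, (((A.filter fun w => Z w = a).card : ℕ) : ℝ) = (Y.card : ℝ) := by
          rw [← hsu]
          push_cast
          rfl
        rw [this]
        exact_mod_cast hYX1)
    have hout : ∑ a ∈ 𝒦, h2 (((V0.filter fun w => Z w = a).card : ℕ) : ℝ)
        (((A.filter fun w => Z w = a).card : ℕ) : ℝ) =
        ∑ a ∈ Q, h2 (((V0.filter fun w => Z w = a).card : ℕ) : ℝ)
        (((A.filter fun w => Z w = a).card : ℕ) : ℝ) := by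
      refine (sum_subset (by rw [hQ]; exact filter_subset _ _) fun a ha haQ => ?_).symm
      have h1 : l ∈ T a := by
        by_contra h
        exact haQ ((hmQ a).2 ⟨ha, h⟩)
      have h3 : V0.filter (fun w => Z w = a) = ∅ := by
        refine filter_eq_empty_iff.2 fun w hw hwa => ?_
        have hw' := (hm0 w).1 hw
        apply hw'.2
        apply hT w hw'.1
        rw [hwa]
        exact h1
      rw [h3, card_empty, Nat.cast_zero]
      unfold h2
      rw [zero_add, show phi 0 = 0 by simp [phi]]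
      ring
    have hsum : ∑ a ∈ 𝒦, phi (((𝒱.filter fun w => Z w = a).card : ℕ) : ℝ) =
        ∑ a ∈ 𝒦, h2 (((V0.filter fun w => Z w = a).card : ℕ) : ℝ)
          (((A.filter fun w => Z w = a).card : ℕ) : ℝ) +
        ∑ a ∈ 𝒦, phi (((V0.filter fun w => Z w = a).card : ℕ) : ℝ) +
        ∑ a ∈ 𝒦, phi (((A.filter fun w => Z w = a).card : ℕ) : ℝ) := by
      rw [← sum_add_distrib, ← sum_add_distrib]
      refine sum_congr rfl fun a _ => ?_
      rw [hfib a]
      unfold h2
      push_cast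
      ring
    have hu' : ∑ a ∈ 𝒦, phi (((V1.filter fun y => (fun y => Z (insert l y)) y = a).card : ℕ) : ℝ) =
        ∑ a ∈ 𝒦, phi (((A.filter fun w => Z w = a).card : ℕ) : ℝ) :=
      sum_congr rfl fun a _ => by rw [hu a]
    rw [hu'] at ih1
    rw [hE0] at ih0
    rw [hE, ← hE1, hsum, hout, hcard]
    have hh : h2 (V0.card : ℝ) (V1.card : ℝ) = phi ((V0.card : ℝ) + (V1.card : ℝ)) -
        phi (V0.card : ℝ) - phi (V1.card : ℝ) := rfl
    rw [hh] at hent
    push_cast at ih0 ih1 hent ⊢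
    nlinarith [ih0, ih1, hent]

end Pool.Agent.H.MP_cba12a_lc.RL
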