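import Pool.Agent.H.MP_cba12a_lc.RL.Defs
import Pool.Agent.H.MP_cba12a_lc.RL.IsoN

/-!
The overlap of the first terms at both ends of an edge inside `q`.
-/

namespace Pool.Agent.H.MP_cba12a_lc.RL

open Finset Pool.Agent.H.MP_cba12a_lc Pool.Agent.H.MP_cba12a_lc.RK

variable {n : ℕ} {o : Fin n → Bool} {q : (Fin n → Bool) → Bool} {F : Finset (Finset (Fin n))}
  {k L : ℕ} {rk : Finset (Fin n) → ℕ} {h : List (List Lit)}

/- PROOF. For every `c` apply `iso_pts` to `𝒱c := 𝒱.filter fun x => c ∈ ft x`, `Z := ft o F rk`. `hT`: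
`ft_spec` (`hV`). `hP`: for `x l = o l`, `l ∉ ft x`: `ft_flp` gives `q (flp l x) = true` and
`ft (flp l x) = ft x ∋ c`; `hdown` gives `flp l x ∈ 𝒱`. `hK`: the labels are terms of `F` which contain
`c`. So `∑ x ∈ 𝒱c, #{l ∈ ft x | flp l x ∈ 𝒱c} ≤ κ * 𝒱c.card`. For `l ∈ ft x \ piv x`
(`x l = o l`, `q (flp l x) = true`, so `flp l x ∈ 𝒱` by `hdown`): `c ∈ ft x ∩ ft (flp l x)` implies
`flp l x ∈ 𝒱c`, `x ∈ 𝒱c`. Sum over `c` and exchange the sums: `∑_c 𝒱c.card = ∑ x ∈ 𝒱, (ft x).card`. -/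
theorem lemA {κ : ℕ} (hR : RefF o q F k L) (hrk : Function.Injective rk) (hk : k ≤ 2 ^ κ)
    {𝒱 : Finset (Fin n → Bool)} (hV : ∀ x ∈ 𝒱, q x = true)
    (hdown : ∀ x ∈ 𝒱, ∀ l, x l = o l → q (flp l x) = true → flp l x ∈ 𝒱) :
    ∑ x ∈ 𝒱, ∑ l ∈ ft o F rk x \ piv o q x, (ft o F rk x ∩ ft o F rk (flp l x)).card ≤
      κ * ∑ x ∈ 𝒱, (ft o F rk x).card := by
  classical
  have hcard : ∀ s : Finset (Fin n), s.card = ∑ c : Fin n, if c ∈ s then 1 else 0 := by
    intro s
    rw [← card_filter]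
    congr 1
    ext c
    simp
  have hiso : ∀ c : Fin n,
      ∑ x ∈ 𝒱.filter (fun x => c ∈ ft o F rk x), ((ft o F rk x).filter fun l =>
        flp l x ∈ 𝒱.filter (fun x => c ∈ ft o F rk x)).card ≤
      κ * (𝒱.filter (fun x => c ∈ ft o F rk x)).card := by
    intro c
    refine iso_pts (o := o) ?_ ?_ ?_
    · intro x hx
      exact (ft_spec (rk := rk) hR (hV x (mem_filter.1 hx).1)).2.1
    · intro x hx l hl hlT
      obtain ⟨h1, h2⟩ := mem_filter.1 hx
      obtain ⟨h3, h4⟩ := ft_flp hR hrk (hV x h1) hl hlT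
      refine mem_filter.2 ⟨hdown x h1 l hl h3, ?_⟩
      rw [h4]
      exact h2
    · refine le_trans (card_le_card ?_) ((hR.read c).trans hk)
      intro T hT
      obtain ⟨x, hx, rfl⟩ := mem_image.1 hT
      obtain ⟨h1, h2⟩ := mem_filter.1 hx
      exact mem_filter.2 ⟨(ft_spec (rk := rk) hR (hV x h1)).1, h2⟩
  calc ∑ x ∈ 𝒱, ∑ l ∈ ft o F rk x \ piv o q x, (ft o F rk x ∩ ft o F rk (flp l x)).card
      = ∑ x ∈ 𝒱, ∑ l ∈ ft o F rk x \ piv o q x, ∑ c : Fin n,
          if c ∈ ft o F rk x ∩ ft o F rk (flp l x) then 1 else 0 := by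
        refine sum_congr rfl fun x _ => sum_congr rfl fun l _ => ?_
        rw [hcard]
    _ = ∑ x ∈ 𝒱, ∑ c : Fin n, ∑ l ∈ ft o F rk x \ piv o q x,
          if c ∈ ft o F rk x ∩ ft o F rk (flp l x) then 1 else 0 := by
        refine sum_congr rfl fun x _ => ?_
        rw [sum_comm]
    _ = ∑ c : Fin n, ∑ x ∈ 𝒱, ∑ l ∈ ft o F rk x \ piv o q x,
          if c ∈ ft o F rk x ∩ ft o F rk (flp l x) then 1 else 0 := by
        rw [sum_comm]
    _ ≤ ∑ c : Fin n, κ * (𝒱.filter (fun x => c ∈ ft o F rk x)).card := by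
        refine sum_le_sum fun c _ => le_trans ?_ (hiso c)
        rw [sum_filter]
        refine sum_le_sum fun x hx => ?_
        by_cases hc : c ∈ ft o F rk x
        · rw [if_pos hc, ← card_filter]
          refine card_le_card fun l hl => ?_
          obtain ⟨h1, h2⟩ := mem_filter.1 hl
          obtain ⟨h3, h4⟩ := mem_sdiff.1 h1
          have hO := (ft_spec (rk := rk) hR (hV x hx)).2.1
          have hl0 : x l = o l := hO l h3
          have hq : q (flp l x) = true := by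
            rw [mem_piv] at h4
            by_contra hne
            rw [Bool.not_eq_true] at hne
            exact h4 ⟨hl0, hne⟩
          exact mem_filter.2 ⟨h3, mem_filter.2 ⟨hdown x hx l hl0 hq, (mem_inter.1 h2).2⟩⟩
        · rw [if_neg hc]
          refine (sum_eq_zero fun l _ => ?_).le
          rw [if_neg]
          intro h
          exact hc (mem_inter.1 h).1
    _ = κ * ∑ x ∈ 𝒱, (ft o F rk x).card := by
        rw [← mul_sum]
        congr 1
        have h1 : ∀ c : Fin n, (𝒱.filter (fun x => c ∈ ft o F rk x)).card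
            = ∑ x ∈ 𝒱, if c ∈ ft o F rk x then 1 else 0 := fun c => card_filter _ _
        rw [sum_congr rfl fun c _ => h1 c, sum_comm]
        exact sum_congr rfl fun x _ => (hcard _).symm

end Pool.Agent.H.MP_cba12a_lc.RL
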