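import Pool.Agent.H.MP_cba12a_lc.RL.Time

/-!
The parameters. `ℓ := clog (n + a + 1)`, `u := uu n k a = clog (k a ℓ) + 1`, `v := clog (k ℓ)`. The
constants are `c1 := 2 ^ 12`, `c2 := 2 ^ 20`, `c3 := 2 ^ 20`; keep them as variables with hypotheses so
that nothing evaluates powers with huge exponents. Models: RK/NumA.lean, RK/NumB.lean.
-/

namespace Pool.Agent.H.MP_cba12a_lc.RL

open Pool.Agent.H.MP_5be563_lc.PT Pool.Agent.H.MP_cba12a_lc Pool.Agent.H.MP_cba12a_lc.RK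

theorem uu_pos (n k a : ℕ) : 1 ≤ uu n k a := by unfold uu; omega

theorem prod_le_uu (n k a : ℕ) : 2 * (k * a * Nat.clog 2 (n + a + 1)) ≤ 2 ^ uu n k a := by
  unfold uu
  rw [pow_succ]
  have := Nat.le_pow_clog (b := 2) (by norm_num) (k * a * Nat.clog 2 (n + a + 1))
  omega

theorem ell_pos {n a : ℕ} (ha : 1 ≤ a) : 1 ≤ Nat.clog 2 (n + a + 1) :=
  Nat.clog_pos (by norm_num) (by omega)

theorem k_le {n k a : ℕ} (ha : 1 ≤ a) : 2 * k ≤ 2 ^ uu n k a := by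
  refine le_trans ?_ (prod_le_uu n k a)
  have h1 : k * 1 * 1 ≤ k * a * Nat.clog 2 (n + a + 1) :=
    Nat.mul_le_mul (Nat.mul_le_mul_left _ ha) (ell_pos ha)
  omega

theorem a_le {n k a : ℕ} (hk : 1 ≤ k) (ha : 1 ≤ a) : 2 * a ≤ 2 ^ uu n k a := by
  refine le_trans ?_ (prod_le_uu n k a)
  have h1 : 1 * a * 1 ≤ k * a * Nat.clog 2 (n + a + 1) :=
    Nat.mul_le_mul (Nat.mul_le_mul_right _ hk) (ell_pos ha)
  omega

theorem ell_le {n k a : ℕ} (hk : 1 ≤ k) (ha : 1 ≤ a) :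
    2 * Nat.clog 2 (n + a + 1) ≤ 2 ^ uu n k a := by
  refine le_trans ?_ (prod_le_uu n k a)
  have h1 : 1 * 1 * Nat.clog 2 (n + a + 1) ≤ k * a * Nat.clog 2 (n + a + 1) :=
    Nat.mul_le_mul_right _ (Nat.mul_le_mul hk ha)
  omega

/-- `ℓ + u ≤ 2 * 2 ^ u`. -/
theorem pL_le {n k a c2 : ℕ} (hk : 1 ≤ k) (ha : 1 ≤ a) (hc2 : c2 = 2 ^ 20) :
    pL c2 n k a ≤ 2 ^ (21 + uu n k a) := by
  unfold pL
  have h1 := ell_le (n := n) hk ha
  have h2 : uu n k a < 2 ^ uu n k a := Nat.lt_two_pow_self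
  have h4 : 2 ^ (21 + uu n k a) = 2 ^ 20 * (2 * 2 ^ uu n k a) := by
    rw [pow_add, ← mul_assoc]
    norm_num
  rw [hc2, h4]
  exact Nat.mul_le_mul_left _ (by omega)

theorem pL_pos {n k a c2 : ℕ} (hc2 : c2 = 2 ^ 20) : 1 ≤ pL c2 n k a := by
  unfold pL
  have h1 := uu_pos n k a
  rw [hc2]
  exact Nat.mul_pos (Nat.two_pow_pos 20) (by omega)

/- PROOF. `u = u' + 1`. If `v = 0` then `k = 1`, `ℓ = 1`, `n = 0`, `a = 1`, `u' = 0`. Else
`u' ≥ v ≥ 1` and `(u' + 1) (v + 1) ≤ 4 u' v ≤ 8 (v u' + 1)`. -/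
theorem two_pow_le (n k a : ℕ) (hk : 1 ≤ k) (ha : 1 ≤ a) :
    2 ^ ((Nat.clog 2 (k * Nat.clog 2 (n + a + 1)) + 1) * uu n k a) ≤ (2 * bd n k a) ^ 8 := by
  unfold uu bd
  have hl := ell_pos (n := n) ha
  have hvu : Nat.clog 2 (k * Nat.clog 2 (n + a + 1)) ≤
      Nat.clog 2 (k * a * Nat.clog 2 (n + a + 1)) := by
    apply Nat.clog_mono_right
    exact Nat.mul_le_mul_right _ (Nat.le_mul_of_pos_right k ha)
  have hv0 : Nat.clog 2 (k * Nat.clog 2 (n + a + 1)) = 0 →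
      Nat.clog 2 (k * a * Nat.clog 2 (n + a + 1)) = 0 := by
    intro h0
    have h1 := Nat.le_pow_clog (b := 2) (by norm_num) (k * Nat.clog 2 (n + a + 1))
    rw [h0, pow_zero] at h1
    have h2 : 1 * Nat.clog 2 (n + a + 1) ≤ k * Nat.clog 2 (n + a + 1) :=
      Nat.mul_le_mul_right _ hk
    have h3 : k * 1 ≤ k * Nat.clog 2 (n + a + 1) := Nat.mul_le_mul_left _ hl
    have h4 : Nat.clog 2 (n + a + 1) = 1 := by omega
    have h5 : k = 1 := by omega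
    have h6 := Nat.le_pow_clog (b := 2) (by norm_num) (n + a + 1)
    rw [h4] at h6
    have h7 : a = 1 := by omega
    rw [h4, h5, h7]
    simp
  revert hvu hv0
  generalize Nat.clog 2 (k * Nat.clog 2 (n + a + 1)) = v
  generalize Nat.clog 2 (k * a * Nat.clog 2 (n + a + 1)) = w
  intro hvu hv0
  have h1 : (2 * 2 ^ (v * w)) ^ 8 = 2 ^ ((v * w + 1) * 8) := by
    rw [pow_mul 2 (v * w + 1) 8, pow_succ 2 (v * w), mul_comm]
  rw [h1]
  refine Nat.pow_le_pow_right (by norm_num) ?_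
  rcases Nat.eq_zero_or_pos v with h | h
  · have h2 := hv0 h
    rw [h, h2]
    norm_num
  · have hw : 1 ≤ w := by omega
    have h2 : v ≤ v * w := Nat.le_mul_of_pos_right v hw
    have h3 : w ≤ v * w := Nat.le_mul_of_pos_left w h
    calc (v + 1) * (w + 1) = v * w + v + w + 1 := by ring
      _ ≤ (v * w + 1) * 8 := by omega

/-- `dbl_eq`, `two_pow_le` -/
theorem pT_eq {n k a c1 : ℕ} (hk : 1 ≤ k) (ha : 1 ≤ a) :
    pT c1 ((2 * bd n k a) ^ 8) n k a = 2 ^ (c1 * uu n k a) := by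
  unfold pT
  have h1 : 2 ^ uu n k a ≤ (2 * bd n k a) ^ 8 := by
    refine le_trans (Nat.pow_le_pow_right (by norm_num) ?_) (two_pow_le n k a hk ha)
    exact Nat.le_mul_of_pos_left _ (by omega)
  rw [dbl_eq h1, ← pow_mul, mul_comm]

private theorem NumA_k {n k a : ℕ} (ha : 1 ≤ a) : k ≤ 2 ^ uu n k a :=
  le_trans (by omega) (k_le (n := n) (k := k) ha)

private theorem NumA_a {n k a : ℕ} (hk : 1 ≤ k) (ha : 1 ≤ a) : a ≤ 2 ^ uu n k a :=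
  le_trans (by omega) (a_le (n := n) (a := a) hk ha)

/-- `k ≤ 2 ^ u` -/
theorem num_kap {n k a : ℕ} (ha : 1 ≤ a) :
    3 * (200 * uu n k a) + 68 * Nat.clog 2 k + 12 ≤ 1000 * uu n k a := by
  have h1 : Nat.clog 2 k ≤ uu n k a := Nat.clog_le_of_le_pow (NumA_k ha)
  have h2 := uu_pos n k a
  omega

theorem num_s {n k a c2 : ℕ} (hk : 1 ≤ k) (ha : 1 ≤ a) (hc2 : c2 = 2 ^ 20) :
    1024 * a ^ 3 * k ^ 3 * pL c2 n k a ^ 3 ≤ 2 ^ (200 * uu n k a) := by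
  have h1 := NumA_k (n := n) (k := k) ha
  have h2 := pL_le (n := n) hk ha hc2
  have h3 := uu_pos n k a
  have h4 := NumA_a (n := n) (a := a) hk ha
  calc 1024 * a ^ 3 * k ^ 3 * pL c2 n k a ^ 3
      ≤ 2 ^ 10 * (2 ^ uu n k a) ^ 3 * (2 ^ uu n k a) ^ 3 * (2 ^ (21 + uu n k a)) ^ 3 :=
        Nat.mul_le_mul (Nat.mul_le_mul (Nat.mul_le_mul (by norm_num)
          (Nat.pow_le_pow_left h4 3)) (Nat.pow_le_pow_left h1 3)) (Nat.pow_le_pow_left h2 3)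
    _ = 2 ^ (10 + uu n k a * 3 + uu n k a * 3 + (21 + uu n k a) * 3) := by
        rw [← pow_mul, ← pow_mul, ← pow_add, ← pow_add, ← pow_add]
    _ ≤ 2 ^ (200 * uu n k a) := Nat.pow_le_pow_right (by norm_num) (by omega)

theorem num_T {n k a c1 : ℕ} (hk : 1 ≤ k) (ha : 1 ≤ a) (hc1 : c1 = 2 ^ 12) :
    32 * a * (1000 * uu n k a) * 2 ^ (2 * (1000 * uu n k a) + 200 * uu n k a + 4) ≤
      pT c1 ((2 * bd n k a) ^ 8) n k a := by
  rw [pT_eq hk ha]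
  have hu := uu_pos n k a
  have h4 := NumA_a (n := n) (a := a) hk ha
  generalize uu n k a = u at hu h4 ⊢
  have h5 : 1000 * u ≤ 2 ^ (10 + u) := by
    rw [pow_add]
    have h6 : u ≤ 2 ^ u := Nat.lt_two_pow_self.le
    calc 1000 * u ≤ 2 ^ 10 * u := Nat.mul_le_mul_right _ (by norm_num)
      _ ≤ 2 ^ 10 * 2 ^ u := Nat.mul_le_mul_left _ h6
  calc 32 * a * (1000 * u) * 2 ^ (2 * (1000 * u) + 200 * u + 4)
      ≤ 2 ^ 5 * 2 ^ u * 2 ^ (10 + u) * 2 ^ (2 * (1000 * u) + 200 * u + 4) :=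
        Nat.mul_le_mul_right _ (Nat.mul_le_mul (Nat.mul_le_mul (by norm_num) h4) h5)
    _ = 2 ^ (5 + u + (10 + u) + (2 * (1000 * u) + 200 * u + 4)) := by
        rw [← pow_add, ← pow_add, ← pow_add]
    _ ≤ 2 ^ (c1 * u) := by
        refine Nat.pow_le_pow_right (by norm_num) ?_
        rw [hc1]
        norm_num
        omega

private theorem NumA_clog_le (x : ℕ) : Nat.clog 2 x ≤ x :=
  Nat.clog_le_of_le_pow Nat.lt_two_pow_self.le

private theorem NumA_clog_mul (x y : ℕ) : Nat.clog 2 (x * y) ≤ Nat.clog 2 x + Nat.clog 2 y := by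
  refine Nat.clog_le_of_le_pow ?_
  rw [pow_add]
  exact Nat.mul_le_mul (Nat.le_pow_clog one_lt_two x) (Nat.le_pow_clog one_lt_two y)

/- PROOF. `u ≤ clog k + clog a + clog ℓ + 1 ≤ k + 2 ℓ + 1` (`clog a ≤ ℓ`, `clog x ≤ x`), so
`pL ≤ 5 c2 k ℓ` and `2 (k ^ 2 pL) ≤ 2 ^ 24 (k ℓ) ^ 3 ≤ 2 ^ (24 + 3 v)`. -/
theorem num_c {n k a c2 : ℕ} (hk : 1 ≤ k) (ha : 1 ≤ a) (hc2 : c2 = 2 ^ 20) :
    3 * (Nat.clog 2 (2 * (k ^ 2 * pL c2 n k a)) + 1) ≤
      75 * (Nat.clog 2 (k * Nat.clog 2 (n + a + 1)) + 1) := by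
  have hl := ell_pos (n := n) ha
  have h1 : uu n k a ≤ k + Nat.clog 2 (n + a + 1) + Nat.clog 2 (n + a + 1) + 1 := by
    unfold uu
    have e1 := NumA_clog_mul (k * a) (Nat.clog 2 (n + a + 1))
    have e2 := NumA_clog_mul k a
    have e3 := NumA_clog_le k
    have e4 := NumA_clog_le (Nat.clog 2 (n + a + 1))
    have e5 : Nat.clog 2 a ≤ Nat.clog 2 (n + a + 1) := Nat.clog_mono_right 2 (by omega)
    omega
  have h2 : pL c2 n k a ≤ 2 ^ 20 * (5 * (k * Nat.clog 2 (n + a + 1))) := by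
    unfold pL
    rw [hc2]
    refine Nat.mul_le_mul_left _ ?_
    generalize Nat.clog 2 (n + a + 1) = l at hl h1 ⊢
    have e1 : l ≤ k * l := Nat.le_mul_of_pos_left l hk
    have e2 : k ≤ k * l := Nat.le_mul_of_pos_right k hl
    omega
  have h3 := Nat.le_pow_clog (b := 2) (by norm_num) (k * Nat.clog 2 (n + a + 1))
  have hkl : k ≤ k * Nat.clog 2 (n + a + 1) := Nat.le_mul_of_pos_right k hl
  generalize Nat.clog 2 (k * Nat.clog 2 (n + a + 1)) = v at h3 ⊢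
  generalize k * Nat.clog 2 (n + a + 1) = X at h2 h3 hkl
  have h4 : Nat.clog 2 (2 * (k ^ 2 * pL c2 n k a)) ≤ 24 + 3 * v := by
    refine Nat.clog_le_of_le_pow ?_
    calc 2 * (k ^ 2 * pL c2 n k a) ≤ 2 * (X ^ 2 * (2 ^ 20 * (5 * X))) := by gcongr
      _ = (10 * 2 ^ 20) * X ^ 3 := by ring
      _ ≤ 2 ^ 24 * X ^ 3 := Nat.mul_le_mul_right _ (by norm_num)
      _ ≤ 2 ^ 24 * (2 ^ v) ^ 3 := Nat.mul_le_mul_left _ (Nat.pow_le_pow_left h3 3)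
      _ = 2 ^ (24 + 3 * v) := by rw [← pow_mul, ← pow_add, mul_comm v 3]
  omega

private theorem NumA_N {T Y X c u v E c3 R : ℕ} (hT : 2 ^ ((v + 1) * u) ≤ T)
    (hX : X ≤ 2 ^ (E * u)) (hc : c ≤ 75 * (v + 1)) (hE : 75 * E ≤ c3) (hR : 1 ≤ R)
    (hY : Y = T ^ c3 * R) : X ^ c ≤ Y := by
  have h1 : X ^ c ≤ T ^ c3 := by
    calc X ^ c ≤ (2 ^ (E * u)) ^ c := Nat.pow_le_pow_left hX _
      _ = 2 ^ (E * u * c) := (pow_mul 2 (E * u) c).symm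
      _ ≤ 2 ^ ((v + 1) * u * (75 * E)) := by
          apply Nat.pow_le_pow_right (by norm_num)
          calc E * u * c ≤ E * u * (75 * (v + 1)) := Nat.mul_le_mul_left _ hc
            _ = (v + 1) * u * (75 * E) := by ring
      _ = (2 ^ ((v + 1) * u)) ^ (75 * E) := pow_mul 2 ((v + 1) * u) (75 * E)
      _ ≤ T ^ (75 * E) := Nat.pow_le_pow_left hT _
      _ ≤ T ^ c3 := by
          apply Nat.pow_le_pow_right _ hE
          exact lt_of_lt_of_le (by positivity) hT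
  calc X ^ c ≤ T ^ c3 * 1 := by rw [mul_one]; exact h1
    _ ≤ T ^ c3 * R := Nat.mul_le_mul_left _ hR
    _ = Y := hY.symm

private theorem NumA_P {n k a c2 : ℕ} (hk : 1 ≤ k) (ha : 1 ≤ a) (hc2 : c2 = 2 ^ 20) :
    1 ≤ (64 * pP c2 n k a) ^ 10 := by
  have h1 := pL_pos (n := n) (k := k) (a := a) hc2
  have h2 : 0 < pP c2 n k a := by
    unfold pP
    positivity
  have : 0 < 64 * pP c2 n k a := by positivity
  exact Nat.one_le_pow _ _ this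

/- PROOF. `2 k L ^ 2 + 1 ≤ 2 ^ (46 u)`, `num_c`, `two_pow_le`. -/
theorem num_N1 {n k a c2 c3 : ℕ} (hk : 1 ≤ k) (ha : 1 ≤ a) (hc2 : c2 = 2 ^ 20)
    (hc3 : c3 = 2 ^ 20) :
    (2 * k * pL c2 n k a ^ 2 + 1) ^ (3 * (Nat.clog 2 (2 * (k ^ 2 * pL c2 n k a)) + 1)) ≤
      pN c2 c3 ((2 * bd n k a) ^ 8) n k a := by
  have hu := uu_pos n k a
  have hL := pL_le (n := n) hk ha hc2
  have hk2 := k_le (n := n) (k := k) ha
  refine NumA_N (E := 46) (two_pow_le n k a hk ha) ?_ (num_c hk ha hc2) ?_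
    (NumA_P (n := n) hk ha hc2) rfl
  · generalize uu n k a = u at hu hL hk2 ⊢
    generalize pL c2 n k a = L at hL ⊢
    have h1 : 2 * k * L ^ 2 ≤ 2 ^ (42 + 3 * u) := by
      calc 2 * k * L ^ 2 ≤ 2 ^ u * (2 ^ (21 + u)) ^ 2 := by gcongr
        _ = 2 ^ (42 + 3 * u) := by
            rw [← pow_mul, ← pow_add]
            congr 1
            ring
    calc 2 * k * L ^ 2 + 1 ≤ 2 ^ (42 + 3 * u) + 2 ^ (42 + 3 * u) :=
          Nat.add_le_add h1 (Nat.one_le_two_pow)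
      _ = 2 ^ (43 + 3 * u) := by rw [show 43 + 3 * u = (42 + 3 * u) + 1 by ring, pow_succ]; ring
      _ ≤ 2 ^ (46 * u) := by
          apply Nat.pow_le_pow_right (by norm_num)
          omega
  · rw [hc3]
    norm_num

/- PROOF. `4 Θ ^ 2 + 1 ≤ 2 ^ ((2 c1 + 3) u)`, `num_c`, `75 (2 c1 + 3) ≤ c3`, `two_pow_le`. -/
theorem num_N3 {n k a c1 c2 c3 : ℕ} (hk : 1 ≤ k) (ha : 1 ≤ a) (hc1 : c1 = 2 ^ 12)
    (hc2 : c2 = 2 ^ 20) (hc3 : c3 = 2 ^ 20) :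
    (4 * pT c1 ((2 * bd n k a) ^ 8) n k a ^ 2 + 1) ^
      (3 * (Nat.clog 2 (2 * (k ^ 2 * pL c2 n k a)) + 1)) ≤
      pN c2 c3 ((2 * bd n k a) ^ 8) n k a := by
  rw [pT_eq hk ha]
  have hu := uu_pos n k a
  refine NumA_N (E := 2 * c1 + 3) (two_pow_le n k a hk ha) ?_ (num_c hk ha hc2) ?_
    (NumA_P (n := n) hk ha hc2) rfl
  · generalize uu n k a = u at hu ⊢
    calc 4 * (2 ^ (c1 * u)) ^ 2 + 1 ≤ 4 * (2 ^ (c1 * u)) ^ 2 + 4 * (2 ^ (c1 * u)) ^ 2 := by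
          apply Nat.add_le_add_left
          have : 0 < 4 * (2 ^ (c1 * u)) ^ 2 := by positivity
          exact this
      _ = 2 ^ (c1 * u * 2 + 3) := by
          rw [pow_add, pow_mul 2 (c1 * u) 2]
          ring
      _ ≤ 2 ^ ((2 * c1 + 3) * u) := by
          apply Nat.pow_le_pow_right (by norm_num)
          nlinarith
  · rw [hc1, hc3]
    norm_num

theorem num_N2 {n k a c2 c3 : ℕ} : (64 * pP c2 n k a) ^ 10 ≤
    pN c2 c3 ((2 * bd n k a) ^ 8) n k a := by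
  unfold pN
  apply Nat.le_mul_of_pos_left
  have : 0 < bd n k a := by
    unfold bd
    positivity
  positivity

/- PROOF. `n + 1 ≤ 2 ^ ℓ`; `log₂` of the left side is at most
`67 + 2 ℓ + 8 u + c1 u ≤ 2 ^ 20 (ℓ + u)`. -/
theorem num_L {n k a c1 c2 : ℕ} (hk : 1 ≤ k) (ha : 1 ≤ a) (hc1 : c1 = 2 ^ 12)
    (hc2 : c2 = 2 ^ 20) :
    2 * n * k * pW c1 c2 ((2 * bd n k a) ^ 8) n k a ≤ 2 ^ pL c2 n k a := by
  unfold pW pP
  rw [pT_eq hk ha]
  have hu := uu_pos n k a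
  have hL := pL_le (n := n) hk ha hc2
  have hk2 : k ≤ 2 ^ uu n k a := NumA_k ha
  have ha2 : a ≤ 2 ^ uu n k a := NumA_a hk ha
  have hn : n + a + 1 ≤ 2 ^ Nat.clog 2 (n + a + 1) := Nat.le_pow_clog (by norm_num) _
  have hl1 := ell_pos (n := n) ha
  have hE : 67 + 2 * Nat.clog 2 (n + a + 1) + 8 * uu n k a + c1 * uu n k a ≤ pL c2 n k a := by
    unfold pL
    rw [hc1, hc2]
    norm_num
    omega
  generalize uu n k a = u at *
  generalize pL c2 n k a = L at *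
  generalize Nat.clog 2 (n + a + 1) = l at *
  have hn0 : n ≤ 2 ^ l := by omega
  have hn1 : n + 1 ≤ 2 ^ l := by omega
  calc 2 * n * k * (2 ^ 24 * (k ^ 2 * L * a ^ 2 * (n + 1)) * a * L * 2 ^ (c1 * u))
      ≤ 2 * 2 ^ l * 2 ^ u * (2 ^ 24 * ((2 ^ u) ^ 2 * 2 ^ (21 + u) * (2 ^ u) ^ 2 * 2 ^ l) *
        2 ^ u * 2 ^ (21 + u) * 2 ^ (c1 * u)) := by gcongr
    _ = 2 ^ (67 + 2 * l + 8 * u + c1 * u) := by
        rw [← pow_mul]
        simp only [← pow_add, ← pow_succ']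
        congr 1
        ring
    _ ≤ 2 ^ L := Nat.pow_le_pow_right (by norm_num) hE

end Pool.Agent.H.MP_cba12a_lc.RL
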