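import Pool.Agent.H.MP_cba12a_lc.RL.Time

/-!
Polynomial bounds for the parameters. Model: RK/NumC.lean.
-/

namespace Pool.Agent.H.MP_cba12a_lc.RL

open Pool.Agent.H.MP_5be563_lc.PT Pool.Agent.H.MP_cba12a_lc Pool.Agent.H.MP_cba12a_lc.RK

private theorem NumC_dbl (e T : ℕ) (hT : 1 ≤ T) : dbl e T ≤ T := by
  unfold dbl
  induction e with
  | zero => simpa using hT
  | succ e ih =>
    rw [Function.iterate_succ_apply']
    split_ifs with h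
    · exact h
    · exact ih

private theorem NumC_bd (n k a : ℕ) (hk : 1 ≤ k) (ha : 1 ≤ a) :
    1 ≤ bd n k a ∧ k ≤ bd n k a ∧ a ≤ bd n k a ∧ Nat.clog 2 (n + a + 1) ≤ bd n k a ∧
      uu n k a ≤ bd n k a := by
  have hl : 1 ≤ Nat.clog 2 (n + a + 1) := Nat.clog_pos (by norm_num) (by omega)
  have hla := Nat.le_pow_clog (b := 2) (by norm_num) (n + a + 1)
  have hkl := Nat.le_pow_clog (b := 2) (by norm_num) (k * Nat.clog 2 (n + a + 1))
  have hv := Nat.le_pow_clog (b := 2) (by norm_num) (k * a * Nat.clog 2 (n + a + 1))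
  have hu : Nat.clog 2 (k * a * Nat.clog 2 (n + a + 1)) + 1 ≤
      2 ^ Nat.clog 2 (k * a * Nat.clog 2 (n + a + 1)) := Nat.lt_two_pow_self
  have hka : 1 ≤ k * a := Nat.mul_le_mul hk ha
  have hb : 2 ^ Nat.clog 2 (k * a * Nat.clog 2 (n + a + 1)) ≤ bd n k a := by
    unfold bd
    refine Nat.pow_le_pow_right (by norm_num) ?_
    rcases Nat.eq_zero_or_pos (Nat.clog 2 (k * Nat.clog 2 (n + a + 1))) with h0 | h0
    · rw [h0, pow_zero] at hkl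
      have h1 : k * 1 ≤ k * Nat.clog 2 (n + a + 1) := Nat.mul_le_mul_left k hl
      have h2 : 1 * Nat.clog 2 (n + a + 1) ≤ k * Nat.clog 2 (n + a + 1) :=
        Nat.mul_le_mul_right _ hk
      have h3 : Nat.clog 2 (n + a + 1) = 1 := by omega
      have h4 : k = 1 := by omega
      rw [h3, pow_one] at hla
      have h5 : a = 1 := by omega
      rw [h3, h4, h5, Nat.mul_one, Nat.mul_one, Nat.clog_one_right]
    · exact Nat.le_mul_of_pos_left _ h0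
  have h1 : k * a * Nat.clog 2 (n + a + 1) ≤ bd n k a := hv.trans hb
  refine ⟨Nat.one_le_two_pow.trans hb, ?_, ?_, ?_, ?_⟩
  · calc k = k * 1 * 1 := by ring
      _ ≤ k * a * Nat.clog 2 (n + a + 1) := Nat.mul_le_mul (Nat.mul_le_mul_left k ha) hl
      _ ≤ _ := h1
  · calc a = 1 * a * 1 := by ring
      _ ≤ k * a * Nat.clog 2 (n + a + 1) := Nat.mul_le_mul (Nat.mul_le_mul_right a hk) hl
      _ ≤ _ := h1
  · calc Nat.clog 2 (n + a + 1) = 1 * Nat.clog 2 (n + a + 1) := by ring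
      _ ≤ k * a * Nat.clog 2 (n + a + 1) := Nat.mul_le_mul_right _ hka
      _ ≤ _ := h1
  · unfold uu
    exact hu.trans hb

private theorem NumC_pL (c2 n k a : ℕ) (hk : 1 ≤ k) (ha : 1 ≤ a) (y : ℕ)
    (hy : bd n k a ≤ y) : pL c2 n k a ≤ 2 * c2 * y := by
  obtain ⟨-, -, -, hlb, hub⟩ := NumC_bd n k a hk ha
  unfold pL
  have h2 : Nat.clog 2 (n + a + 1) + uu n k a ≤ 2 * y := by omega
  calc c2 * (Nat.clog 2 (n + a + 1) + uu n k a) ≤ c2 * (2 * y) := Nat.mul_le_mul_left _ h2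
    _ = _ := by ring

private theorem NumC_pP (c2 n k a : ℕ) (hk : 1 ≤ k) (ha : 1 ≤ a) (y : ℕ) (hn : n + 1 ≤ y)
    (hy : bd n k a ≤ y) : pP c2 n k a ≤ 2 * c2 * y ^ 6 := by
  obtain ⟨-, hkb, hab, -, -⟩ := NumC_bd n k a hk ha
  have hk' : k ≤ y := hkb.trans hy
  have ha' : a ≤ y := hab.trans hy
  have hL := NumC_pL c2 n k a hk ha y hy
  unfold pP
  calc k ^ 2 * pL c2 n k a * a ^ 2 * (n + 1) ≤ y ^ 2 * (2 * c2 * y) * y ^ 2 * y := by gcongr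
    _ = _ := by ring

private theorem NumC_pW (c1 c2 n k a : ℕ) (hk : 1 ≤ k) (ha : 1 ≤ a) (y : ℕ) (hn : n + 1 ≤ y)
    (hy : bd n k a ≤ y) :
    pW c1 c2 ((2 * bd n k a) ^ 8) n k a ≤ 2 ^ 26 * c2 ^ 2 * y ^ 8 * ((2 * y) ^ 8) ^ c1 := by
  obtain ⟨h1, -, hab, -, -⟩ := NumC_bd n k a hk ha
  have ha' : a ≤ y := hab.trans hy
  have hL := NumC_pL c2 n k a hk ha y hy
  have hP := NumC_pP c2 n k a hk ha y hn hy
  have hT : pT c1 ((2 * bd n k a) ^ 8) n k a ≤ ((2 * y) ^ 8) ^ c1 := by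
    unfold pT
    refine Nat.pow_le_pow_left ?_ c1
    refine (NumC_dbl _ _ (Nat.one_le_pow _ _ (by omega))).trans ?_
    exact Nat.pow_le_pow_left (by omega) 8
  unfold pW
  calc 2 ^ 24 * pP c2 n k a * a * pL c2 n k a * pT c1 ((2 * bd n k a) ^ 8) n k a
      ≤ 2 ^ 24 * (2 * c2 * y ^ 6) * y * (2 * c2 * y) * ((2 * y) ^ 8) ^ c1 := by gcongr
    _ = _ := by ring

/- PROOF. With `ℓ := clog (n + a + 1)`: `k, a, ℓ, uu ≤ bd` (if `clog (k ℓ) ≥ 1` then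
`bd ≥ 2 ^ clog (k a ℓ) ≥ k a ℓ`; else `k = a = ℓ = 1`, `n = 0`), `pL ≤ 2 * c2 * bd`,
`pT ≤ ((2 bd) ^ 8) ^ c1` (`numC_dbl` in RK/NumC.lean), as in RK/NumC.lean. -/
theorem exists_poly (c1 c2 : ℕ) : ∃ P : Polynomial ℕ, ∀ n k a b : ℕ, 1 ≤ k → 1 ≤ a →
    16 * (2 * (n + 1) * pW c1 c2 ((2 * bd n k a) ^ 8) n k a) ≤ P.eval (n + bd n k a) ∧
    4 * ((2 * n + 1) * (256 * pP c2 n k a + 1) + 1 + Nat.clog 2 b) *
      (16 * (2 * (n + 1) * pW c1 c2 ((2 * bd n k a) ^ 8) n k a)) ^ 2 ≤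
      P.eval (n + bd n k a + Nat.clog 2 b) := by
  obtain ⟨Y, hY⟩ : ∃ Y : Polynomial ℕ, Y = Polynomial.X + 1 := ⟨_, rfl⟩
  obtain ⟨C0, hC0⟩ : ∃ C0 : ℕ, C0 = 2 ^ 26 * c2 ^ 2 := ⟨_, rfl⟩
  obtain ⟨C1, hC1⟩ : ∃ C1 : ℕ, C1 = 2 * c2 := ⟨_, rfl⟩
  obtain ⟨W, hW⟩ : ∃ W : Polynomial ℕ,
      W = Polynomial.C C0 * Y ^ 8 * ((Polynomial.C 2 * Y) ^ 8) ^ c1 := ⟨_, rfl⟩
  obtain ⟨D, hD⟩ : ∃ D : Polynomial ℕ, D = Polynomial.C 16 * (Polynomial.C 2 * Y * W) := ⟨_, rfl⟩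
  have hYe : ∀ x, Y.eval x = x + 1 := fun x => by
    rw [hY, Polynomial.eval_add, Polynomial.eval_X, Polynomial.eval_one]
  have hWe : ∀ x, W.eval x = C0 * (x + 1) ^ 8 * ((2 * (x + 1)) ^ 8) ^ c1 := fun x => by
    rw [hW, Polynomial.eval_mul, Polynomial.eval_mul, Polynomial.eval_C, Polynomial.eval_pow,
      Polynomial.eval_pow, Polynomial.eval_pow, Polynomial.eval_mul, Polynomial.eval_C, hYe]
  have hDe : ∀ x, D.eval x = 16 * (2 * (x + 1) * W.eval x) := fun x => by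
    rw [hD, Polynomial.eval_mul, Polynomial.eval_mul, Polynomial.eval_mul, Polynomial.eval_C,
      Polynomial.eval_C, hYe]
  have hmain : ∀ n k a x : ℕ, 1 ≤ k → 1 ≤ a → n + bd n k a ≤ x →
      16 * (2 * (n + 1) * pW c1 c2 ((2 * bd n k a) ^ 8) n k a) ≤ D.eval x := by
    intro n k a x hk ha hx
    have h1 := NumC_pW c1 c2 n k a hk ha (x + 1) (by omega) (by omega)
    rw [← hC0] at h1
    rw [hDe, hWe]
    have h2 : n + 1 ≤ x + 1 := by omega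
    gcongr
  refine ⟨D + Polynomial.C 4 * ((Polynomial.C 2 * Y) *
    (Polynomial.C 256 * (Polynomial.C C1 * Y ^ 6) + 1) + 1 + Y) *
    D ^ 2, fun n k a b hk ha => ⟨?_, ?_⟩⟩
  · rw [Polynomial.eval_add]
    exact (hmain n k a _ hk ha le_rfl).trans (Nat.le_add_right _ _)
  · rw [Polynomial.eval_add]
    refine le_trans ?_ (Nat.le_add_left _ _)
    obtain ⟨x, hx⟩ : ∃ x, x = n + bd n k a + Nat.clog 2 b := ⟨_, rfl⟩
    rw [← hx]
    have h1 := hmain n k a x hk ha (by omega)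
    have hP := NumC_pP c2 n k a hk ha (x + 1) (by omega) (by omega)
    rw [← hC1] at hP
    have h2n : 2 * n + 1 ≤ 2 * (x + 1) := by omega
    have hb' : Nat.clog 2 b ≤ x + 1 := by omega
    have he : (Polynomial.C 4 * ((Polynomial.C 2 * Y) *
        (Polynomial.C 256 * (Polynomial.C C1 * Y ^ 6) + 1) + 1 + Y) * D ^ 2).eval x =
        4 * ((2 * (x + 1)) * (256 * (C1 * (x + 1) ^ 6) + 1) + 1 + (x + 1)) *
          D.eval x ^ 2 := by
      simp only [Polynomial.eval_mul, Polynomial.eval_add, Polynomial.eval_pow, Polynomial.eval_C,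
        Polynomial.eval_one, hYe]
    rw [he]
    gcongr

end Pool.Agent.H.MP_cba12a_lc.RL
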