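import Pool.Agent.H.MP_cba12a_lc.RL.Time

/-!
The time bound is polynomial in `n` if `(log₂ k) ^ 2` and `log₂ a * log₂ (2 k log₂ n)` are at most a
constant times `log₂ n`. Model: RK/NumD.lean.
-/

namespace Pool.Agent.H.MP_cba12a_lc.RL

private theorem NumD_mul (x y : ℕ) : Nat.clog 2 (x * y) ≤ Nat.clog 2 x + Nat.clog 2 y := by
  refine Nat.clog_le_of_le_pow ?_
  rw [pow_add]
  exact Nat.mul_le_mul (Nat.le_pow_clog one_lt_two x) (Nat.le_pow_clog one_lt_two y)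

private theorem NumD_exp (x : ℕ) : (x + 1) ^ 2 ≤ 9 * 2 ^ x := by
  induction x with
  | zero => norm_num
  | succ x ih =>
    rcases Nat.lt_or_ge x 2 with h | h
    · interval_cases x <;> norm_num
    · have h1 : (x + 1 + 1) ^ 2 ≤ 2 * (x + 1) ^ 2 := by
        obtain ⟨y, rfl⟩ := Nat.exists_eq_add_of_le h
        nlinarith [Nat.zero_le (y ^ 2), Nat.zero_le y]
      calc (x + 1 + 1) ^ 2 ≤ 2 * (x + 1) ^ 2 := h1
        _ ≤ 2 * (9 * 2 ^ x) := Nat.mul_le_mul_left 2 ih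
        _ = _ := by ring

private theorem NumD_clog (l : ℕ) (hl : 1 ≤ l) : Nat.clog 2 l ^ 2 ≤ 9 * l := by
  rcases Nat.lt_or_ge l 2 with h | h
  · have : l = 1 := by omega
    subst this
    rw [Nat.clog_one_right]
    norm_num
  · have h1 : 0 < Nat.clog 2 l := Nat.clog_pos one_lt_two h
    have h2 : 2 ^ (Nat.clog 2 l).pred < l := Nat.pow_pred_clog_lt_self one_lt_two (by omega)
    obtain ⟨m, hm⟩ : ∃ m, Nat.clog 2 l = m + 1 := ⟨Nat.clog 2 l - 1, by omega⟩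
    rw [hm, Nat.pred_succ] at h2
    rw [hm]
    exact (NumD_exp m).trans (Nat.mul_le_mul_left 9 h2.le)

/-- the estimate of the exponent -/
private theorem NumD_bound {c D l x y z u w e f : ℕ} (hl : 1 ≤ l) (hz : z ^ 2 ≤ c * l)
    (hxw : x * w ≤ c * l) (hw : 1 ≤ w) (hzw : z ≤ w) (huw : u ≤ w) (hu : u ^ 2 ≤ 9 * l)
    (hy : y ≤ D + u) (he : e ≤ z + y) (hf : f ≤ z + x + y) :
    e * f ≤ l * (4 * c + 4 * D ^ 2 + 36 + D * c) := by
  have hx : x ≤ c * l := (Nat.le_mul_of_pos_right x hw).trans hxw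
  have h1 : x * z ≤ c * l := (Nat.mul_le_mul_left x hzw).trans hxw
  have h2 : x * u ≤ c * l := (Nat.mul_le_mul_left x huw).trans hxw
  have h3 : x * y ≤ D * (c * l) + c * l := by
    calc x * y ≤ x * (D + u) := Nat.mul_le_mul_left x hy
      _ = D * x + x * u := by ring
      _ ≤ _ := Nat.add_le_add (Nat.mul_le_mul_left D hx) h2
  have h4 : y ^ 2 ≤ 2 * D ^ 2 + 2 * u ^ 2 := by
    calc y ^ 2 ≤ (D + u) ^ 2 := Nat.pow_le_pow_left hy 2
      _ ≤ _ := by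
        zify
        nlinarith [sq_nonneg ((D : ℤ) - u)]
  have h5 : (z + y) ^ 2 ≤ 2 * z ^ 2 + 2 * y ^ 2 := by
    zify
    nlinarith [sq_nonneg ((z : ℤ) - y)]
  have h6 : D ^ 2 ≤ l * D ^ 2 := Nat.le_mul_of_pos_left _ hl
  calc e * f ≤ (z + y) * (z + x + y) := Nat.mul_le_mul he hf
    _ = (z + y) ^ 2 + x * z + x * y := by ring
    _ ≤ (2 * (c * l) + 2 * (2 * D ^ 2 + 2 * (9 * l))) + c * l + (D * (c * l) + c * l) := by
      refine Nat.add_le_add (Nat.add_le_add (h5.trans ?_) h1) h3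
      refine Nat.add_le_add (Nat.mul_le_mul_left 2 hz) (Nat.mul_le_mul_left 2 (h4.trans ?_))
      exact Nat.add_le_add_left (Nat.mul_le_mul_left 2 hu) _
    _ ≤ (2 * (c * l) + 2 * (2 * (l * D ^ 2) + 2 * (9 * l))) + c * l + (D * (c * l) + c * l) := by
      omega
    _ = _ := by ring

/- PROOF. `k = 0`: `bd = 1`. Let `ℓ := clog (n + 2) ≥ 1`, `x := clog a`, `z := clog k`. `n + a + 1` is at
most `(n + 2) * 2 a` or `a = 0`, so `ℓ' := clog (n + a + 1) ≤ ℓ + x + 1`; the second hypothesis gives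
`x ≤ c ℓ` (`clog (2 k ℓ) ≥ 1`), so `ℓ' ≤ (c + 2) ℓ`, `y := clog ℓ' ≤ D + clog ℓ`, `D := clog (c + 2)`. The
exponent is at most `(z + y) (z + x + y) = (z + y) ^ 2 + x (z + y)`; `z ^ 2 ≤ c ℓ`,
`y ^ 2 ≤ 2 D ^ 2 + 2 (clog ℓ) ^ 2`, `(clog ℓ) ^ 2 ≤ 9 ℓ`, `x z ≤ x clog (2 k ℓ) ≤ c ℓ`,
`x y ≤ D x + x clog (2 k ℓ) ≤ (D + 1) c ℓ`. So the exponent is at most `C ℓ` with `C` depending on `c`
only, and `2 ^ ℓ ≤ 2 (n + 2)` (`two_pow_clog_le`). -/
theorem bd_poly (c : ℕ) : ∃ P : Polynomial ℕ, ∀ n k a : ℕ,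
    Nat.clog 2 k ^ 2 ≤ c * Nat.clog 2 (n + 2) →
    Nat.clog 2 a * Nat.clog 2 (2 * k * Nat.clog 2 (n + 2)) ≤ c * Nat.clog 2 (n + 2) →
    bd n k a ≤ P.eval n := by
  obtain ⟨D, hD⟩ : ∃ D, D = Nat.clog 2 (c + 1) := ⟨_, rfl⟩
  refine ⟨(2 * (Polynomial.X + 2)) ^ (4 * c + 4 * D ^ 2 + 36 + D * c), fun n k a hk ha => ?_⟩
  rw [Polynomial.eval_pow, Polynomial.eval_mul, Polynomial.eval_add, Polynomial.eval_X,
    Polynomial.eval_ofNat]
  have hpos : 1 ≤ (2 * (n + 2)) ^ (4 * c + 4 * D ^ 2 + 36 + D * c) := Nat.one_le_pow _ _ (by omega)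
  unfold bd
  rcases Nat.eq_zero_or_pos k with rfl | hk0
  · rw [Nat.zero_mul, Nat.clog_zero_right, Nat.zero_mul, pow_zero]
    exact hpos
  rcases Nat.eq_zero_or_pos a with rfl | ha0
  · rw [Nat.mul_zero, Nat.zero_mul, Nat.clog_zero_right, Nat.mul_zero, pow_zero]
    exact hpos
  obtain ⟨l, hl⟩ : ∃ l, l = Nat.clog 2 (n + 2) := ⟨_, rfl⟩
  have hl1 : 1 ≤ l := by
    rw [hl]
    exact Nat.clog_pos one_lt_two (by omega)
  have h2l : 2 ^ l ≤ 2 * (n + 2) := by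
    rw [hl]
    exact two_pow_clog_le (n + 2) (by omega)
  rw [← hl] at hk ha
  have hw : 1 ≤ Nat.clog 2 (2 * k * l) := by
    refine Nat.clog_pos one_lt_two ?_
    have : 1 ≤ k * l := Nat.mul_pos hk0 hl1
    nlinarith
  have hzw : Nat.clog 2 k ≤ Nat.clog 2 (2 * k * l) := by
    refine Nat.clog_mono_right 2 ?_
    nlinarith
  have huw : Nat.clog 2 l ≤ Nat.clog 2 (2 * k * l) := by
    refine Nat.clog_mono_right 2 ?_
    nlinarith
  have hx : Nat.clog 2 a ≤ c * l := (Nat.le_mul_of_pos_right _ hw).trans ha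
  obtain ⟨l', hl'⟩ : ∃ l', l' = Nat.clog 2 (n + a + 1) := ⟨_, rfl⟩
  have h3 : l' ≤ (c + 1) * l := by
    have h4 : n + a + 1 ≤ (n + 2) * a := by
      obtain ⟨b, rfl⟩ := Nat.exists_eq_add_of_le ha0
      nlinarith [Nat.zero_le (n * b)]
    calc l' = Nat.clog 2 (n + a + 1) := hl'
      _ ≤ Nat.clog 2 ((n + 2) * a) := Nat.clog_mono_right 2 h4
      _ ≤ Nat.clog 2 (n + 2) + Nat.clog 2 a := NumD_mul _ _
      _ ≤ l + c * l := by
        rw [← hl]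
        exact Nat.add_le_add_left hx l
      _ = (c + 1) * l := by ring
  have hy : Nat.clog 2 l' ≤ D + Nat.clog 2 l := by
    rw [hD]
    exact (Nat.clog_mono_right 2 h3).trans (NumD_mul _ _)
  rw [← hl']
  have he : Nat.clog 2 (k * l') ≤ Nat.clog 2 k + Nat.clog 2 l' := NumD_mul _ _
  have hf : Nat.clog 2 (k * a * l') ≤ Nat.clog 2 k + Nat.clog 2 a + Nat.clog 2 l' :=
    (NumD_mul _ _).trans (Nat.add_le_add_right (NumD_mul _ _) _)
  have h6 := NumD_bound hl1 hk ha hw hzw huw (NumD_clog l hl1) hy he hf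
  calc 2 ^ (Nat.clog 2 (k * l') * Nat.clog 2 (k * a * l'))
      ≤ 2 ^ (l * (4 * c + 4 * D ^ 2 + 36 + D * c)) := Nat.pow_le_pow_right (by norm_num) h6
    _ = (2 ^ l) ^ (4 * c + 4 * D ^ 2 + 36 + D * c) := pow_mul 2 l _
    _ ≤ (2 * (n + 2)) ^ (4 * c + 4 * D ^ 2 + 36 + D * c) := Nat.pow_le_pow_left h2l _

end Pool.Agent.H.MP_cba12a_lc.RL
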